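import Mathlib
import Pool.Agent.H32.QC.Defs

/-! The map between completions of an extension of number fields. -/

set_option autoImplicit false

open NumberField IsDedekindDomain Pool.Agent.H32.QC

namespace Pool.Agent.H12.QC

variable {F E : Type} [Field F] [NumberField F] [Field E] [NumberField E] [Algebra F E]

/-- the ring homomorphism between the completions -/
theorem exists_ringHom (w : FPl E) : ∃ φ : (w.under (𝓞 F)).adicCompletion F →+* w.adicCompletion E,
    Continuous φ ∧ ∀ x : F, φ (ic (w.under (𝓞 F)) x) = ic w (algebraMap F E x) := by
  set v : FPl F := w.under (𝓞 F) with hv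
  have : w.asIdeal.LiesOver v.asIdeal := ⟨rfl⟩
  have hu := HeightOneSpectrum.uniformContinuous_algebraMap_liesOver F E v w
  let e1 := HeightOneSpectrum.adicCompletion.equiv F v
  let e2 := HeightOneSpectrum.adicCompletion.equiv E w
  let m := UniformSpace.Completion.mapRingHom (algebraMap (WithVal (v.valuation F)) (WithVal (w.valuation E))) hu.continuous
  refine ⟨(e2.symm.toRingHom.comp m).comp e1.toRingHom, ?_, ?_⟩
  · have h1 : Continuous m := UniformSpace.Completion.continuous_map
    exact (HeightOneSpectrum.adicCompletion.continuous_ofCompletion E w).comp
      (h1.comp (HeightOneSpectrum.adicCompletion.continuous_toCompletion F v))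
  · intro x
    apply HeightOneSpectrum.adicCompletion.ext
    exact UniformSpace.Completion.mapRingHom_coe hu.continuous ((WithVal.equiv (v.valuation F)).symm x)

end Pool.Agent.H12.QC
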