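import Mathlib

/-! Primes for which a polynomial has a root in the p-adic numbers. -/

set_option autoImplicit false

open Polynomial

namespace Pool.Agent.H12.QC

/-- prime divisors of the values of a polynomial -/
lemma schur (h : ℤ[X]) (hd : 1 ≤ h.natDegree) (N : ℤ) (hN : N ≠ 0) :
    ∃ (p : ℕ) (a : ℤ), p.Prime ∧ ¬ (p : ℤ) ∣ N ∧ (p : ℤ) ∣ h.eval a := by
  have hne : h ≠ 0 := by rintro rfl; simp at hd
  obtain ⟨x0, hx0⟩ : ∃ x0 : ℤ, h.eval x0 ≠ 0 := by
    by_contra hcon
    push Not at hcon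
    exact hne (Polynomial.funext fun r => by rw [hcon r]; simp)
  set c := h.eval x0 with hc
  -- finitely many values of small size
  have hfin : {m : ℤ | |h.eval m| ≤ |c|}.Finite := by
    have : {m : ℤ | |h.eval m| ≤ |c|} ⊆ ⋃ j ∈ Finset.Icc (-|c|) |c|, {m : ℤ | (h - C j).IsRoot m} := by
      intro m hm
      rw [Set.mem_ofPred_eq, abs_le] at hm
      simp only [Set.mem_iUnion]
      refine ⟨h.eval m, Finset.mem_Icc.2 hm, ?_⟩
      simp [Polynomial.IsRoot]
    refine Set.Finite.subset ?_ this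
    refine Set.Finite.biUnion (Finset.finite_toSet _) fun j _ => ?_
    have hj : h - C j ≠ 0 := by
      intro he
      rw [sub_eq_zero] at he
      rw [he, natDegree_C] at hd
      omega
    exact (h - C j).roots.toFinset.finite_toSet.subset fun m hm => by
      simp only [Finset.mem_coe, Multiset.mem_toFinset]
      exact (mem_roots hj).2 hm
  have hNc : N * c ≠ 0 := mul_ne_zero hN hx0
  have hinj : Function.Injective (fun x : ℕ => x0 + N * c * (x : ℤ)) := by
    intro x y hxy
    have h1 : N * c * (x : ℤ) = N * c * (y : ℤ) := by simpa using hxy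
    exact_mod_cast mul_left_cancel₀ hNc h1
  obtain ⟨m, ⟨x, rfl⟩, hm⟩ := (Set.infinite_range_of_injective hinj).exists_notMem_finite hfin
  rw [Set.mem_ofPred_eq, not_le] at hm
  obtain ⟨t, ht⟩ : N * c ∣ h.eval (x0 + N * c * (x : ℤ)) - c := by
    have h1 : (x0 + N * c * (x : ℤ)) - x0 ∣ h.eval (x0 + N * c * (x : ℤ)) - h.eval x0 :=
      Polynomial.sub_dvd_eval_sub _ _ h
    have h2 : N * c ∣ (x0 + N * c * (x : ℤ)) - x0 := ⟨x, by ring⟩
    exact h2.trans h1
  have h3 : h.eval (x0 + N * c * (x : ℤ)) = c * (1 + N * t) := by linear_combination ht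
  have h4 : (1 + N * t).natAbs ≠ 1 := by
    intro h5
    rw [h3, abs_mul] at hm
    have h6 : |1 + N * t| = 1 := by
      rw [Int.abs_eq_natAbs, h5]; rfl
    rw [h6, mul_one] at hm
    exact lt_irrefl _ hm
  obtain ⟨p, hp, hpd⟩ := Nat.exists_prime_and_dvd h4
  have h7 : (p : ℤ) ∣ 1 + N * t := Int.natCast_dvd.2 hpd
  refine ⟨p, _, hp, ?_, h3 ▸ h7.mul_left c⟩
  intro h8
  have h9 : (p : ℤ) ∣ 1 := by
    have := dvd_sub h7 (h8.mul_right t)
    simpa using this
  exact hp.one_lt.ne' (by exact_mod_cast Int.eq_one_of_dvd_one (by positivity) h9)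

/-- clearing denominators -/
lemma clear_den (f : ℚ[X]) : ∃ (m : ℤ) (h : ℤ[X]), m ≠ 0 ∧ h.map (Int.castRingHom ℚ) = C (m : ℚ) * f := by
  obtain ⟨b, hb0, hb⟩ := IsLocalization.integerNormalization_spec (nonZeroDivisors ℤ) (S := ℚ) f
  refine ⟨b, IsLocalization.integerNormalization (nonZeroDivisors ℤ) f, nonZeroDivisors.ne_zero hb0, ?_⟩
  have : algebraMap ℤ ℚ = Int.castRingHom ℚ := rfl
  rw [← this, hb, Algebra.smul_def]
  rfl

/-- an irreducible rational polynomial has roots in infinitely many p-adic fields -/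
lemma exists_padic_root (f : ℚ[X]) (hf : Irreducible f) (n : ℕ) :
    ∃ p : ℕ, p.Prime ∧ n < p ∧ ∀ [Fact p.Prime], ∃ r : ℚ_[p], aeval r f = 0 := by
  obtain ⟨m, h, hm, hh⟩ := clear_den f
  have hmQ : (m : ℚ) ≠ 0 := by exact_mod_cast hm
  have hinj : Function.Injective (Int.castRingHom ℚ) := Int.cast_injective
  have hdeg : 1 ≤ h.natDegree := by
    rw [← natDegree_map_eq_of_injective hinj, hh, natDegree_C_mul hmQ]
    exact hf.natDegree_pos
  obtain ⟨u, v, huv⟩ := hf.separable
  obtain ⟨d1, U, hd1, hU⟩ := clear_den u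
  obtain ⟨d2, V, hd2, hV⟩ := clear_den v
  have hder : (derivative h).map (Int.castRingHom ℚ) = C (m : ℚ) * derivative f := by
    rw [← derivative_map, hh, derivative_C_mul]
  have hD : C (d2 : ℤ) * U * h + C d1 * V * derivative h = C (d1 * d2 * m) := by
    apply map_injective _ hinj
    simp only [Polynomial.map_add, Polynomial.map_mul, map_C, hU, hV, hh, hder]
    have : (C ((Int.castRingHom ℚ) (d1 * d2 * m)) : ℚ[X]) =
        C (d1 : ℚ) * C (d2 : ℚ) * C (m : ℚ) * (u * f + v * derivative f) := by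
      rw [huv]
      simp
    rw [this]
    simp only [eq_intCast]
    ring
  obtain ⟨p, a, hp, hpN, hpa⟩ := schur h hdeg ((n.factorial : ℤ) * (d1 * d2 * m))
    (mul_ne_zero (by exact_mod_cast n.factorial_ne_zero) (mul_ne_zero (mul_ne_zero hd1 hd2) hm))
  refine ⟨p, hp, ?_, ?_⟩
  · by_contra hle
    rw [not_lt] at hle
    apply hpN
    have : (p : ℤ) ∣ (n.factorial : ℤ) := by exact_mod_cast hp.dvd_factorial.2 hle
    exact this.mul_right _
  · intro _
    have hnd : ¬ (p : ℤ) ∣ (derivative h).eval a := by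
      intro hcon
      apply hpN
      have h1 := congrArg (eval a) hD
      simp only [eval_add, eval_mul, eval_C] at h1
      rw [← h1]
      exact ((hpa.mul_left _).add (hcon.mul_left _)).mul_left _
    have e1 : ‖aeval (a : ℤ_[p]) h‖ < 1 := by
      have : aeval (a : ℤ_[p]) h = ((h.eval a : ℤ) : ℤ_[p]) := by
        have := Polynomial.aeval_algebraMap_apply ℤ_[p] a h
        simpa using this
      rw [this, PadicInt.norm_int_lt_one_iff_dvd]
      exact hpa
    have e2 : ‖aeval (a : ℤ_[p]) (derivative h)‖ = 1 := by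
      have : aeval (a : ℤ_[p]) (derivative h) = (((derivative h).eval a : ℤ) : ℤ_[p]) := by
        have := Polynomial.aeval_algebraMap_apply ℤ_[p] a (derivative h)
        simpa using this
      rw [this]
      refine le_antisymm (PadicInt.norm_le_one _) ?_
      by_contra hlt
      rw [not_le, PadicInt.norm_int_lt_one_iff_dvd] at hlt
      exact hnd hlt
    obtain ⟨z, hz, -⟩ := hensels_lemma (F := h) (a := (a : ℤ_[p])) (by rw [e2, one_pow]; exact e1)
    refine ⟨(z : ℚ_[p]), ?_⟩
    have h1 : aeval (z : ℚ_[p]) h = 0 := by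
      have := Polynomial.aeval_algebraMap_apply ℚ_[p] z h
      rw [hz] at this
      simpa using this
    have h2 : aeval (z : ℚ_[p]) h = (m : ℚ_[p]) * aeval (z : ℚ_[p]) f := by
      have h3 : aeval (z : ℚ_[p]) h = aeval (z : ℚ_[p]) (h.map (Int.castRingHom ℚ)) := by
        rw [aeval_def, aeval_def, eval₂_map]
        congr 1
      rw [h3, hh, map_mul, aeval_C]
      congr 1
    rw [h2] at h1
    rcases mul_eq_zero.1 h1 with h4 | h4
    · exact absurd (by exact_mod_cast h4) hm
    · exact h4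

end Pool.Agent.H12.QC
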