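import Mathlib
import Pool.Agent.H32.QC.Defs
import Pool.Agent.H12.QC.SPR1
import Pool.Agent.H12.QC.I1

/-! A rational prime which splits completely in a given number field. -/

set_option autoImplicit false

open NumberField IsDedekindDomain Pool.Agent.H32.QC Polynomial

namespace Pool.Agent.H12.QC

/-- a field generated by one element embeds in many p-adic fields -/
lemma exists_hom_padic (M : Type) [Field M] [NumberField M] (n : ℕ) :
    ∃ p : ℕ, p.Prime ∧ n < p ∧ ∀ [Fact p.Prime], Nonempty (M →+* ℚ_[p]) := by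
  obtain ⟨θ, hθ⟩ := Field.exists_primitive_element ℚ M
  have hint : IsIntegral ℚ θ := Algebra.IsIntegral.isIntegral θ
  obtain ⟨p, hp, hn, h⟩ := exists_padic_root (minpoly ℚ θ) (minpoly.irreducible hint) n
  refine ⟨p, hp, hn, ?_⟩
  intro _
  obtain ⟨r, hr⟩ := h
  let e1 : AdjoinRoot (minpoly ℚ θ) ≃ₐ[ℚ] IntermediateField.adjoin ℚ {θ} :=
    IntermediateField.adjoinRootEquivAdjoin ℚ hint
  let e2 : IntermediateField.adjoin ℚ {θ} ≃ₐ[ℚ] M :=
    (IntermediateField.equivOfEq hθ).trans IntermediateField.topEquiv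
  let g : AdjoinRoot (minpoly ℚ θ) →+* ℚ_[p] := AdjoinRoot.lift (algebraMap ℚ ℚ_[p]) r hr
  exact ⟨g.comp ((e1.trans e2).symm : M ≃+* AdjoinRoot (minpoly ℚ θ)).toRingHom⟩

lemma padic_to_completion (p : ℕ) (hp : p.Prime) (K : Type) [Field K] [NumberField K] (w : FPl K)
    (hw : (p : 𝓞 K) ∈ w.asIdeal) :
    letI : Fact p.Prime := ⟨hp⟩
    Nonempty (ℚ_[p] →+* w.adicCompletion K) := by
  set v : FPl ℚ := w.under (𝓞 ℚ) with hv
  have h1 : (p : 𝓞 ℚ) ∈ v.asIdeal := by
    show algebraMap (𝓞 ℚ) (𝓞 K) (p : 𝓞 ℚ) ∈ w.asIdeal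
    simpa using hw
  have h2 : Rat.HeightOneSpectrum.natGenerator v ∣ p := by
    rw [Rat.HeightOneSpectrum.natGenerator_dvd_iff]
    have := Ideal.mem_map_of_mem (Rat.IsIntegralClosure.intEquiv (𝓞 ℚ)) h1
    simpa using this
  have h3 : Rat.HeightOneSpectrum.natGenerator v = p :=
    (Nat.prime_dvd_prime_iff_eq (Rat.HeightOneSpectrum.prime_natGenerator v) hp).1 h2
  obtain ⟨f, -, -⟩ := exists_ringHom (F := ℚ) (E := K) w
  have : Fact (Nat.Prime (Rat.HeightOneSpectrum.primesEquiv v : ℕ)) :=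
    ⟨(Rat.HeightOneSpectrum.primesEquiv v).2⟩
  let e := Rat.HeightOneSpectrum.adicCompletion.padicEquiv v
  have h4 : Nonempty (ℚ_[(Rat.HeightOneSpectrum.primesEquiv v : ℕ)] →+* w.adicCompletion K) :=
    ⟨f.comp (e.symm : ℚ_[(Rat.HeightOneSpectrum.primesEquiv v : ℕ)] ≃+* v.adicCompletion ℚ).toRingHom⟩
  subst h3
  exact h4

/-- a rational prime which splits completely -/
theorem exists_splitPrime (E : Type) [Field E] [NumberField E] (n : ℕ) :
    ∃ p : ℕ, p.Prime ∧ n < p ∧ ∀ (K : Type) [Field K] [NumberField K] (w : FPl K),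
      (p : 𝓞 K) ∈ w.asIdeal →
      ∀ α : E, ((minpoly ℚ α).map (algebraMap ℚ (w.adicCompletion K))).Splits := by
  have hA : Algebra.IsAlgebraic ℚ (AlgebraicClosure E) := Algebra.IsAlgebraic.trans ℚ E _
  have : IsAlgClosure ℚ (AlgebraicClosure E) := ⟨inferInstance, hA⟩
  have : Normal ℚ (AlgebraicClosure E) := IsAlgClosure.normal _ _
  let M := IntermediateField.normalClosure ℚ E (AlgebraicClosure E)
  have : NumberField M := { }
  obtain ⟨p, hp, hn, h⟩ := exists_hom_padic M n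
  refine ⟨p, hp, hn, ?_⟩
  intro K _ _ w hw α
  have : Fact p.Prime := ⟨hp⟩
  obtain ⟨g⟩ := h
  obtain ⟨f⟩ := padic_to_completion p hp K w hw
  have h1 : ((minpoly ℚ α).map (algebraMap ℚ M)).Splits := by
    have h2 : minpoly ℚ α = minpoly ℚ (algebraMap E M α) :=
      (minpoly.algebraMap_eq (algebraMap E M).injective α).symm
    rw [h2]
    exact (normalClosure.normal ℚ E (AlgebraicClosure E)).splits _
  have h2 : (algebraMap ℚ (w.adicCompletion K)) = (f.comp g).comp (algebraMap ℚ M) :=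
    RingHom.ext_rat _ _
  rw [h2, ← Polynomial.map_map]
  exact h1.map _

end Pool.Agent.H12.QC
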