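import Pool.Agent.H23.QCF.Targets

/-!
# Block S: places of a quadratic extension (sub-targets of T_PLC)
-/

set_option autoImplicit false

open NumberField IsDedekindDomain Pool.Agent.H32.QC Pool.Agent.H23.QCF

namespace Pool.Agent.H12.QC

/-- index of 2B for an extension of a free group -/
def T_IX2 : Prop := ∀ (B C : Type) [AddCommGroup B] [AddCommGroup C] [Module.Free ℤ C]
    [Module.Finite ℤ C] (g : B →+ C), Function.Surjective g →
    (nsmulAddMonoidHom (α := B) 2).range.index =
      (nsmulAddMonoidHom (α := g.ker) 2).range.index * 2 ^ Module.finrank ℤ C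

/-- two places above a place where `t` is a square -/
def T_SP2 : Prop := ∀ (K E : Type) [Field K] [NumberField K] [Field E] [NumberField E]
  [Algebra K E] (t : K) (s : E), Quad K E t s → ∀ v : FPl K, sqAt (.inl v) t →
  ∃ w w' : FPl E, w ≠ w' ∧ w.under (𝓞 K) = v ∧ w'.under (𝓞 K) = v

/-- the finite part of `T_PLC` -/
def T_SPF : Prop := ∀ (K E : Type) [Field K] [NumberField K] [Field E] [NumberField E]
  [Algebra K E] (t : K) (s : E), Quad K E t s → ∀ S : Set (FPl K), S.Finite →
  (SE E S).Finite ∧
    2 * S.ncard ≤ (SE E S).ncard + {v : FPl K | v ∈ S ∧ ¬ sqAt (.inl v) t}.ncard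

/-- the infinite part of `T_PLC` -/
def T_SPI : Prop := ∀ (K E : Type) [Field K] [NumberField K] [Field E] [NumberField E]
  [Algebra K E] (t : K) (s : E), Quad K E t s →
  2 * Fintype.card (InfinitePlace K) ≤ Fintype.card (InfinitePlace E) +
    {φ : K →+* ℝ | ¬ IsSquare (φ t)}.ncard

end Pool.Agent.H12.QC
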