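import Mathlib
import Pool.Agent.H12.QC.Targets
import Pool.Agent.H12.QC.I1

/-! Functoriality rows. -/

set_option autoImplicit false

open NumberField IsDedekindDomain Pool.Agent.H32.QC Pool.Agent.H23.QCF

namespace Pool.Agent.H12.QC

theorem pf_SFUNC : T_FUNC := by
  intro K E _ _ _ _ _ w
  obtain ⟨f, _, hf⟩ := exists_ringHom (F := K) (E := E) w
  exact ⟨f, hf⟩

lemma Sol_map {L M : Type*} [Field L] [Field M] (f : L →+* M) {a b : L} (h : Sol a b) :
    Sol (f a) (f b) := by
  obtain ⟨x, y, z, hne, h⟩ := h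
  refine ⟨f x, f y, f z, ?_, ?_⟩
  · rcases hne with hne | hne | hne
    · exact Or.inl (by simpa using hne)
    · exact Or.inr (Or.inl (by simpa using hne))
    · exact Or.inr (Or.inr (by simpa using hne))
  · rw [← map_pow, h]
    simp

lemma hil_eq_one {L : Type*} [Field L] {a b : L} : hil a b = 1 ↔ Sol a b := by
  unfold hil
  split_ifs with h
  · simp [h]
  · simp [h]

theorem pf_SFUN : T_FUN := by
  intro K E _ _ _ _ _ w a b h
  rcases w with w | φ
  · obtain ⟨f, hf⟩ := pf_SFUNC K E w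
    have h1 : Sol (ic (w.under (𝓞 K)) a) (ic (w.under (𝓞 K)) b) := hil_eq_one.1 h
    have h2 := Sol_map f h1
    rw [hf, hf] at h2
    exact hil_eq_one.2 h2
  · exact h

theorem pf_SFUNS : T_FUNS := by
  intro K E _ _ _ _ _ w a h
  rcases w with w | φ
  · obtain ⟨f, hf⟩ := pf_SFUNC K E w
    have h1 : IsSquare (ic (w.under (𝓞 K)) a) := h
    have h2 := h1.map f
    rw [hf] at h2
    exact h2
  · exact h

theorem pf_SVONE : T_VONE := by
  intro K E _ _ _ _ _ w x
  have : w.asIdeal.LiesOver (w.under (𝓞 K)).asIdeal := ⟨rfl⟩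
  have h := HeightOneSpectrum.valuation_liesOver (K := K) E (w.under (𝓞 K)) w x
  rw [← h]
  have h0 : (w.under (𝓞 K)).asIdeal.ramificationIdx' w.asIdeal ≠ 0 :=
    Ideal.IsDedekindDomain.ramificationIdx'_ne_zero_of_liesOver w.asIdeal (w.under (𝓞 K)).ne_bot
  constructor
  · intro h1
    rcases pow_eq_one_iff.1 h1 with h2 | h2
    · exact h2
    · exact absurd h2 h0
  · intro h1
    rw [h1, one_pow]

end Pool.Agent.H12.QC
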