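import Pool.Agent.H23.QCF.Targets
import Pool.Agent.H32.QC.TargetsL

/-!
# Block S: the number of square classes at the places of a finite set (sub-targets of T_CNT)
-/

set_option autoImplicit false

open NumberField IsDedekindDomain Pool.Agent.H23.QCF
open Pool.Agent.H32.QC (Sol hil Iso FPl Pl ic hs sqAt nsq)

namespace Pool.Agent.H12.QC

/-- the index of the elements which are squares at all places of a finite set -/
def T_SIN : Prop := ∀ (K : Type) [Field K] [NumberField K] (S : Finset (FPl K)),
  (SQS (Sp (S : Set (FPl K)))).index =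
    (∏ v ∈ S, nsq (v.adicCompletion K)) * 2 ^ Nat.card (K →+* ℝ)

/-- the product formula for `2` -/
def T_TWO : Prop := ∀ (K : Type) [Field K] [NumberField K] (S : Finset (FPl K)),
  (∀ v, v ∉ S → v.valuation K 2 = 1) →
  (∏ v ∈ S, ‖(2 : v.adicCompletion K)‖) * 2 ^ Module.finrank ℚ K = 1

/-- infinite places and real embeddings -/
def T_R1 : Prop := ∀ (K : Type) [Field K] [NumberField K],
  2 * Fintype.card (InfinitePlace K) = Module.finrank ℚ K + Nat.card (K →+* ℝ)

end Pool.Agent.H12.QC
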