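import Mathlib
import Pool.Agent.H12.QC.Targets2

/-! The number of square classes. -/

set_option autoImplicit false

open NumberField IsDedekindDomain Pool.Agent.H23.QCF
open Pool.Agent.H32.QC (Sol hil Iso FPl Pl ic hs sqAt nsq)

namespace Pool.Agent.H12.QC

theorem pf_SCNT (h1 : T_SIN) (h2 : T_TWO) (h3 : T_R1) (h4 : Pool.Agent.H32.QC.T_NIV) :
    T_CNT := by
  intro K _ _ S hS hdy
  obtain ⟨S', rfl⟩ := hS.exists_finset_coe
  have e1 := h1 K S'
  have e2 := h2 K S' (fun v hv => hdy v (by simpa using hv))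
  have e3 := h3 K
  have e4 : ((∏ v ∈ S', nsq (v.adicCompletion K) : ℕ) : ℝ) *
      (∏ v ∈ S', ‖(2 : v.adicCompletion K)‖) = 4 ^ S'.card := by
    rw [Nat.cast_prod, ← Finset.prod_mul_distrib, Finset.prod_congr rfl (fun v _ => (h4 K v).2.2)]
    simp
  have e5 : ((∏ v ∈ S', nsq (v.adicCompletion K) : ℕ) : ℝ) = 4 ^ S'.card * 2 ^ Module.finrank ℚ K := by
    have : ((∏ v ∈ S', nsq (v.adicCompletion K) : ℕ) : ℝ) *
        ((∏ v ∈ S', ‖(2 : v.adicCompletion K)‖) * 2 ^ Module.finrank ℚ K) =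
        4 ^ S'.card * 2 ^ Module.finrank ℚ K := by
      rw [← mul_assoc, e4]
    rw [e2, mul_one] at this
    exact this
  have e6 : (∏ v ∈ S', nsq (v.adicCompletion K)) = 4 ^ S'.card * 2 ^ Module.finrank ℚ K := by
    exact_mod_cast e5
  rw [e1, e6, mul_assoc, ← pow_add, ← e3, cnt, Set.ncard_coe_finset, pow_add, pow_mul]
  norm_num

end Pool.Agent.H12.QC
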