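import Mathlib
import Pool.Agent.H12.QC.Targets

/-! Places of E above the places of S: assembly. -/

set_option autoImplicit false

open NumberField IsDedekindDomain Pool.Agent.H32.QC Pool.Agent.H23.QCF

namespace Pool.Agent.H12.QC

theorem pf_SPLC (h1 : T_SPF) (h2 : T_SPI) : T_PLC := by
  classical
  intro K E _ _ _ _ _ t s hQ S hS
  obtain ⟨hfin, hle⟩ := h1 K E t s hQ S hS
  have hi := h2 K E t s hQ
  refine ⟨hfin, ?_⟩
  have hNS : NS S t = (Sum.inl '' {v : FPl K | v ∈ S ∧ ¬ sqAt (.inl v) t}) ∪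
      (Sum.inr '' {φ : K →+* ℝ | ¬ IsSquare (φ t)}) := by
    ext p
    rcases p with v | φ
    · constructor
      · rintro ⟨hp, hn⟩
        exact Or.inl ⟨v, ⟨hp v rfl, hn⟩, rfl⟩
      · rintro (⟨v', ⟨hv', hn⟩, he⟩ | ⟨φ, _, he⟩)
        · cases he
          exact ⟨fun v'' hv'' => by cases hv''; exact hv', hn⟩
        · cases he
    · constructor
      · rintro ⟨hp, hn⟩
        exact Or.inr ⟨φ, hn, rfl⟩
      · rintro (⟨v', ⟨hv', hn⟩, he⟩ | ⟨φ', hn, he⟩)
        · cases he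
        · cases he
          refine ⟨?_, hn⟩
          intro v'' hv''
          cases hv''
  have hd : Disjoint (Sum.inl '' {v : FPl K | v ∈ S ∧ ¬ sqAt (.inl v) t} : Set (Pl K))
      (Sum.inr '' {φ : K →+* ℝ | ¬ IsSquare (φ t)}) := by
    rw [Set.disjoint_left]
    rintro _ ⟨v, _, rfl⟩ ⟨φ, _, he⟩
    cases he
  have hf1 : {v : FPl K | v ∈ S ∧ ¬ sqAt (.inl v) t}.Finite := hS.subset fun v hv => hv.1
  have hf2 : {φ : K →+* ℝ | ¬ IsSquare (φ t)}.Finite := Set.toFinite _
  rw [hNS, Set.ncard_union_eq hd (hf1.image _) (hf2.image _),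
    Set.ncard_image_of_injective _ Sum.inl_injective,
    Set.ncard_image_of_injective _ Sum.inr_injective]
  unfold cnt
  omega

end Pool.Agent.H12.QC
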