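import Mathlib
import Pool.Agent.H12.QC.Targets

/-! Index of the squares in an extension by a free group. -/

set_option autoImplicit false

namespace Pool.Agent.H12.QC

/-- index of 2B for an extension of a free group -/
theorem index_two_ext {B C : Type*} [AddCommGroup B] [AddCommGroup C] [Module.Free ℤ C]
    [Module.Finite ℤ C] (g : B →+ C) (hg : Function.Surjective g) :
    (nsmulAddMonoidHom (α := B) 2).range.index =
      (nsmulAddMonoidHom (α := g.ker) 2).range.index * 2 ^ Module.finrank ℤ C := by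
  have h1 : ((nsmulAddMonoidHom (α := C) 2).range.comap g).index = 2 ^ Module.finrank ℤ C := by
    rw [AddSubgroup.index_comap_of_surjective _ hg, AddSubgroup.index_range_nsmul]
  have h2 : (nsmulAddMonoidHom (α := C) 2).range.comap g = g.ker ⊔ (nsmulAddMonoidHom (α := B) 2).range := by
    ext x
    rw [AddSubgroup.mem_comap, AddSubgroup.mem_sup]
    constructor
    · rintro ⟨c, hc⟩
      obtain ⟨b, rfl⟩ := hg c
      refine ⟨x - 2 • b, ?_, 2 • b, ⟨b, rfl⟩, by abel⟩
      rw [AddMonoidHom.mem_ker, map_sub, map_nsmul, ← hc]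
      simp
    · rintro ⟨a, ha, _, ⟨b, rfl⟩, rfl⟩
      refine ⟨g b, ?_⟩
      rw [AddMonoidHom.mem_ker] at ha
      simp [ha]
  have h3 : (nsmulAddMonoidHom (α := B) 2).range.addSubgroupOf g.ker = (nsmulAddMonoidHom (α := g.ker) 2).range := by
    ext x
    rw [AddSubgroup.mem_addSubgroupOf]
    constructor
    · rintro ⟨b, hb⟩
      have hb' : 2 • b = (x : B) := hb
      have h4 : g b = 0 := by
        have h5 : (2 : ℤ) • g b = 0 := by
          have h6 : (2 : ℤ) • g b = g (2 • b) := by
            rw [map_nsmul, ← natCast_zsmul]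
            rfl
          rw [h6, hb']
          exact x.2
        exact (smul_eq_zero.1 h5).resolve_left two_ne_zero
      exact ⟨⟨b, h4⟩, Subtype.ext hb'⟩
    · rintro ⟨b, rfl⟩
      exact ⟨(b : B), rfl⟩
  have h4 : (nsmulAddMonoidHom (α := B) 2).range ≤ g.ker ⊔ (nsmulAddMonoidHom (α := B) 2).range := le_sup_right
  have h5 : (nsmulAddMonoidHom (α := B) 2).range.relIndex (g.ker ⊔ (nsmulAddMonoidHom (α := B) 2).range)
      = (nsmulAddMonoidHom (α := B) 2).range.relIndex g.ker := AddSubgroup.relIndex_sup_right _ _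
  have h6 : (nsmulAddMonoidHom (α := B) 2).range.relIndex g.ker =
      (nsmulAddMonoidHom (α := g.ker) 2).range.index := by
    rw [← h3]
    rfl
  rw [← AddSubgroup.relIndex_mul_index h4, h5, h6, ← h2, h1]

theorem pf_SIX2 : T_IX2 := by
  intro B C _ _ _ _ g hg
  exact index_two_ext g hg

end Pool.Agent.H12.QC
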