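import Mathlib
import Pool.Agent.H12.QC.Targets
import Pool.Agent.H12.QC.SI

/-! Index of the squares in the units of the ring of integers. -/

set_option autoImplicit false

open NumberField IsDedekindDomain Pool.Agent.H32.QC Pool.Agent.H23.QCF

namespace Pool.Agent.H12.QC

/-- index of 2A depends only on A up to isomorphism -/
theorem index_two_equiv {A B : Type*} [AddCommGroup A] [AddCommGroup B] (e : A ≃+ B) :
    (nsmulAddMonoidHom (α := A) 2).range.index = (nsmulAddMonoidHom (α := B) 2).range.index := by
  have h : (nsmulAddMonoidHom (α := A) 2).range.map (e : A →+ B) = (nsmulAddMonoidHom (α := B) 2).range := by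
    ext x
    constructor
    · rintro ⟨_, ⟨a, rfl⟩, rfl⟩
      exact ⟨e a, by simp⟩
    · rintro ⟨b, rfl⟩
      exact ⟨2 • e.symm b, ⟨e.symm b, rfl⟩, by simp⟩
  rw [← h]
  exact (AddSubgroup.index_map_equiv _ e).symm

/-- additive and multiplicative index -/
theorem index_two_add (G : Type*) [CommGroup G] :
    (nsmulAddMonoidHom (α := Additive G) 2).range.index = (powMonoidHom 2 : G →* G).range.index := by
  rw [← Subgroup.index_toAddSubgroup]
  congr 1

theorem index_units (K : Type) [Field K] [NumberField K] :
    (nsmulAddMonoidHom (α := Additive (𝓞 K)ˣ) 2).range.index = 2 ^ Fintype.card (InfinitePlace K) := by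
  let g : Additive (𝓞 K)ˣ →+ Additive ((𝓞 K)ˣ ⧸ (Units.torsion K)) :=
    MonoidHom.toAdditive (QuotientGroup.mk' (Units.torsion K))
  have hg : Function.Surjective g := QuotientGroup.mk'_surjective (Units.torsion K)
  have h1 := index_two_ext (B := Additive (𝓞 K)ˣ) (C := Additive ((𝓞 K)ˣ ⧸ (Units.torsion K))) g hg
  rw [Units.finrank_modTorsion] at h1
  have e : g.ker ≃+ Additive (Units.torsion K) :=
    { toFun := fun x => Additive.ofMul ⟨x.1.toMul, by
        have h2 : g x.1 = 0 := x.2
        exact (QuotientGroup.eq_one_iff _).1 h2⟩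
      invFun := fun x => ⟨Additive.ofMul x.toMul.1, (QuotientGroup.eq_one_iff _).2 x.toMul.2⟩
      left_inv := fun x => rfl
      right_inv := fun x => rfl
      map_add' := fun x y => rfl }
  rw [index_two_equiv e, index_two_add (Units.torsion K),
    IsCyclic.index_powMonoidHom_range (G := Units.torsion K)] at h1
  have h3 : (Nat.card (Units.torsion K)).gcd 2 = 2 :=
    Nat.gcd_eq_right (Units.even_torsionOrder K).two_dvd
  rw [h1, h3]
  have h4 : Units.rank K = Fintype.card (InfinitePlace K) - 1 := rfl
  have h5 : 0 < Fintype.card (InfinitePlace K) := Fintype.card_pos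
  rw [h4, ← pow_succ']
  congr 1
  omega

end Pool.Agent.H12.QC
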