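import Mathlib
import Pool.Agent.H12.QC.Targets
import Pool.Agent.H12.QC.SU1

/-! The order map of the S-units. -/

set_option autoImplicit false

open NumberField IsDedekindDomain Pool.Agent.H32.QC Pool.Agent.H23.QCF

namespace Pool.Agent.H12.QC

variable {K : Type} [Field K] [NumberField K]

lemma exists_gen (v : FPl K) : ∃ (h : ℕ) (a : 𝓞 K), 0 < h ∧ a ≠ 0 ∧
    v.asIdeal ^ h = Ideal.span {a} := by
  have h0 : v.asIdeal ∈ nonZeroDivisors (Ideal (𝓞 K)) := mem_nonZeroDivisors_of_ne_zero v.ne_bot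
  have h1 : (ClassGroup.mk0 ⟨v.asIdeal, h0⟩) ^ Fintype.card (ClassGroup (𝓞 K)) = 1 := pow_card_eq_one
  rw [← map_pow] at h1
  have h2 : (⟨v.asIdeal, h0⟩ : nonZeroDivisors (Ideal (𝓞 K))) ^ Fintype.card (ClassGroup (𝓞 K)) =
      ⟨v.asIdeal ^ Fintype.card (ClassGroup (𝓞 K)), pow_mem h0 _⟩ := rfl
  rw [h2, ClassGroup.mk0_eq_one_iff] at h1
  obtain ⟨a, ha⟩ := h1.principal
  refine ⟨Fintype.card (ClassGroup (𝓞 K)), a, Fintype.card_pos, ?_, ha⟩
  rintro rfl
  have h3 : v.asIdeal ^ Fintype.card (ClassGroup (𝓞 K)) = ⊥ := by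
    rw [ha]; simp
  exact v.ne_bot (pow_eq_zero_iff (Fintype.card_pos).ne' |>.1 h3)

lemma gen_val {v : FPl K} {h : ℕ} {a : 𝓞 K} (ha : a ≠ 0) (hv : v.asIdeal ^ h = Ideal.span {a}) :
    v.intValuation a = WithZero.exp (-(h : ℤ)) := by
  have h1 : v.intValuation a ≤ WithZero.exp (-(h : ℤ)) := by
    rw [HeightOneSpectrum.intValuation_le_pow_iff_mem, hv]
    exact Ideal.mem_span_singleton_self a
  have h2 : ¬ v.intValuation a ≤ WithZero.exp (-((h + 1 : ℕ) : ℤ)) := by
    rw [HeightOneSpectrum.intValuation_le_pow_iff_mem]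
    intro h3
    have h4 : v.asIdeal ^ h ≤ v.asIdeal ^ (h + 1) := by
      rw [hv, Ideal.span_singleton_le_iff_mem]
      exact h3
    exact absurd h4 (not_le_of_gt (Ideal.pow_succ_lt_pow v.ne_bot h))
  have h3 : v.intValuation a ≠ 0 := HeightOneSpectrum.intValuation_ne_zero v a ha
  rw [← WithZero.exp_log h3] at h1 h2 ⊢
  rw [WithZero.exp_le_exp] at h1 h2
  rw [WithZero.exp_inj]
  push_cast at h2
  omega

lemma gen_val_ne {v v' : FPl K} {h : ℕ} {a : 𝓞 K} (hne : v' ≠ v)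
    (hv : v.asIdeal ^ h = Ideal.span {a}) : v'.intValuation a = 1 := by
  rw [HeightOneSpectrum.intValuation_eq_one_iff]
  intro h1
  have h2 : v.asIdeal ^ h ≤ v'.asIdeal := by
    rw [hv, Ideal.span_singleton_le_iff_mem]
    exact h1
  have h3 : v.asIdeal ≤ v'.asIdeal := v'.isPrime.le_of_pow_le h2
  apply hne
  apply HeightOneSpectrum.ext
  exact ((v.isMaximal).eq_of_le v'.isPrime.ne_top h3).symm

/-- the order map -/
noncomputable def ordHom (S : Set (FPl K)) : Additive (US S) →+ (S → ℤ) where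
  toFun x v := WithZero.log (v.1.valuation K ((x.toMul : Kˣ) : K))
  map_zero' := by
    ext v
    simp
  map_add' x y := by
    ext v
    have h1 : v.1.valuation K ((x.toMul : Kˣ) : K) ≠ 0 := by simp
    have h2 : v.1.valuation K ((y.toMul : Kˣ) : K) ≠ 0 := by simp
    simp only [toMul_add, Subgroup.coe_mul, Units.val_mul, map_mul, Pi.add_apply]
    exact WithZero.log_mul h1 h2

end Pool.Agent.H12.QC
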