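import Mathlib
import Pool.Agent.H12.QC.Targets
import Pool.Agent.H12.QC.SU2

/-! The theorem on S-units. -/

set_option autoImplicit false

open NumberField IsDedekindDomain Pool.Agent.H32.QC Pool.Agent.H23.QCF

namespace Pool.Agent.H12.QC

variable {K : Type} [Field K] [NumberField K]

open Classical in
lemma ord_gen (S : Set (FPl K)) (v : S) : ∃ (h : ℕ) (x : Additive (US S)), 0 < h ∧
    ordHom S x = Pi.single v (-(h : ℤ)) := by
  classical
  obtain ⟨h, a, hpos, ha, hv⟩ := exists_gen v.1
  have haK : (algebraMap (𝓞 K) K a) ≠ 0 := by simpa using ha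
  have hmem : Units.mk0 (algebraMap (𝓞 K) K a) haK ∈ US S := by
    intro v' hv'
    have hne : v' ≠ v.1 := fun e => hv' (e ▸ v.2)
    rw [Units.val_mk0, HeightOneSpectrum.valuation_of_algebraMap]
    exact gen_val_ne hne hv
  refine ⟨h, Additive.ofMul ⟨_, hmem⟩, hpos, ?_⟩
  ext v'
  show WithZero.log (v'.1.valuation K (algebraMap (𝓞 K) K a)) = _
  rw [HeightOneSpectrum.valuation_of_algebraMap]
  by_cases he : v' = v
  · subst he
    rw [gen_val ha hv, WithZero.log_exp, Pi.single_eq_same]
  · have hne : v'.1 ≠ v.1 := fun e => he (Subtype.ext e)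
    rw [gen_val_ne hne hv, Pi.single_eq_of_ne he]
    simp

lemma finrank_range (S : Set (FPl K)) (hS : S.Finite) :
    Module.finrank ℤ (ordHom S).range = S.ncard := by
  classical
  have : Fintype S := hS.fintype
  choose h x hpos hx using ord_gen S
  have h0 : (∏ v, (h v : ℤ)) ≠ 0 := Finset.prod_ne_zero_iff.2 fun v _ => by
    have := hpos v
    exact_mod_cast this.ne'
  let P : AddSubgroup (S → ℤ) := (ordHom S).range
  have hmem : ∀ f : S → ℤ, (∏ v, (h v : ℤ)) • f ∈ P := by
    intro f
    have h1 : (∏ v, (h v : ℤ)) • f = ∑ v : S, (-(f v) * ∏ u ∈ Finset.univ.erase v, (h u : ℤ)) • ordHom S (x v) := by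
      ext u
      rw [Finset.sum_apply, Finset.sum_eq_single u]
      · rw [hx u]
        simp only [Pi.smul_apply, Pi.single_eq_same, smul_eq_mul]
        rw [← Finset.mul_prod_erase Finset.univ (fun v => (h v : ℤ)) (Finset.mem_univ u)]
        ring
      · intro v _ hne
        rw [hx v]
        simp [Pi.single_eq_of_ne (Ne.symm hne)]
      · intro hu
        exact absurd (Finset.mem_univ u) hu
    rw [h1]
    have h5 : ∀ v : S, ordHom S (x v) ∈ P := fun v => ⟨x v, rfl⟩
    exact P.sum_mem fun v _ => P.zsmul_mem (h5 v) _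
  have hle : Module.finrank ℤ P ≤ Module.finrank ℤ (S → ℤ) :=
    Submodule.finrank_le (AddSubgroup.toIntSubmodule P)
  let F : (S → ℤ) →ₗ[ℤ] (AddSubgroup.toIntSubmodule P) :=
    { toFun := fun f => ⟨(∏ v, (h v : ℤ)) • f, hmem f⟩
      map_add' := fun f g => Subtype.ext (smul_add _ _ _)
      map_smul' := fun c f => Subtype.ext (smul_comm _ _ _) }
  have hF : Function.Injective F := by
    intro f g hfg
    have h1 : (∏ v, (h v : ℤ)) • f = (∏ v, (h v : ℤ)) • g := congrArg Subtype.val hfg
    exact smul_right_injective _ h0 h1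
  have : Module.Finite ℤ P := inferInstanceAs (Module.Finite ℤ (AddSubgroup.toIntSubmodule P))
  have hge : Module.finrank ℤ (S → ℤ) ≤ Module.finrank ℤ P :=
    LinearMap.finrank_le_finrank_of_injective hF
  have h2 : Module.finrank ℤ P = Module.finrank ℤ (S → ℤ) := le_antisymm hle hge
  show Module.finrank ℤ P = _
  rw [h2, Module.finrank_fintype_fun_eq_card, ← Nat.card_eq_fintype_card]
  rfl

/-- the kernel of the order map -/
lemma ker_equiv (S : Set (FPl K)) : Nonempty ((ordHom S).ker ≃+ Additive (𝓞 K)ˣ) := by
  let f : Additive (𝓞 K)ˣ →+ (ordHom S).ker :=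
    { toFun := fun u => ⟨Additive.ofMul ⟨Units.map (algebraMap (𝓞 K) K) u.toMul, by
          intro v _
          rw [Units.coe_map]
          exact HeightOneSpectrum.valuation_eq_one_iff_notMem v |>.2 (by
            intro h
            exact v.isPrime.ne_top (Ideal.eq_top_of_isUnit_mem _ h u.toMul.isUnit))⟩, by
          rw [AddMonoidHom.mem_ker]
          ext v
          show WithZero.log (v.1.valuation K (algebraMap (𝓞 K) K u.toMul)) = 0
          rw [HeightOneSpectrum.valuation_eq_one_iff_notMem v.1 |>.2 (by
            intro h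
            exact v.1.isPrime.ne_top (Ideal.eq_top_of_isUnit_mem _ h u.toMul.isUnit))]
          simp⟩
      map_zero' := by
        apply Subtype.ext
        show Additive.ofMul _ = Additive.ofMul _
        congr 1
      map_add' := by
        intro u w
        apply Subtype.ext
        show Additive.ofMul _ = Additive.ofMul _
        congr 1 }
  have hf : Function.Bijective f := by
    constructor
    · intro u w huw
      have h2 : algebraMap (𝓞 K) K u.toMul = algebraMap (𝓞 K) K w.toMul :=
        congrArg (fun z => (((z.1).toMul.1 : Kˣ) : K)) huw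
      have h3 : (u.toMul : 𝓞 K) = w.toMul := by
        apply RingOfIntegers.ext
        exact h2
      exact congrArg Additive.ofMul (Units.ext h3)
    · intro x
      have hx : ordHom S x.1 = 0 := x.2
      have hv : ∀ v : FPl K, v.valuation K ((x.1.toMul : Kˣ) : K) = 1 := by
        intro v
        by_cases hv : v ∈ S
        · have h1 : WithZero.log (v.valuation K ((x.1.toMul : Kˣ) : K)) = 0 :=
            congrFun hx ⟨v, hv⟩
          have h2 : v.valuation K ((x.1.toMul : Kˣ) : K) ≠ 0 := by simp
          rw [← WithZero.exp_log h2, h1]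
          simp
        · exact x.1.toMul.2 v hv
      obtain ⟨a, ha⟩ := HeightOneSpectrum.mem_integers_of_valuation_le_one K
        ((x.1.toMul : Kˣ) : K) (fun v => (hv v).le)
      obtain ⟨b, hb⟩ := HeightOneSpectrum.mem_integers_of_valuation_le_one K
        (((x.1.toMul : Kˣ)⁻¹ : Kˣ) : K) (fun v => by
          rw [Units.val_inv_eq_inv_val, map_inv₀, hv v, inv_one])
      have hab : a * b = 1 := by
        apply RingOfIntegers.ext
        show algebraMap (𝓞 K) K (a * b) = algebraMap (𝓞 K) K 1
        rw [map_mul, ha, hb]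
        simp
      refine ⟨Additive.ofMul ⟨a, b, hab, by rw [mul_comm]; exact hab⟩, ?_⟩
      apply Subtype.ext
      show Additive.ofMul _ = _
      apply Additive.toMul.injective
      apply Subtype.ext
      apply Units.ext
      exact ha
  exact ⟨(AddEquiv.ofBijective f hf).symm⟩

theorem pf_SSU : T_SU := by
  intro K _ _ S hS
  have h1 : ((sqs K).subgroupOf (US S)) = (powMonoidHom 2 : US S →* US S).range := by
    ext x
    rw [Subgroup.mem_subgroupOf]
    constructor
    · rintro ⟨y, hy⟩
      have hy' : y ^ 2 = (x : Kˣ) := hy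
      have hyU : y ∈ US S := by
        intro v hv
        have h2 := x.2 v hv
        rw [← hy', Units.val_pow_eq_pow_val, map_pow] at h2
        rcases pow_eq_one_iff.1 h2 with h3 | h3
        · exact h3
        · exact absurd h3 two_ne_zero
      exact ⟨⟨y, hyU⟩, Subtype.ext hy'⟩
    · rintro ⟨y, rfl⟩
      exact ⟨(y : Kˣ), rfl⟩
  have h2 : (sqs K).relIndex (US S) = (nsmulAddMonoidHom (α := Additive (US S)) 2).range.index := by
    rw [index_two_add, ← h1]
    rfl
  let g : Additive (US S) →+ (ordHom S).range := (ordHom S).rangeRestrict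
  have hg : Function.Surjective g := AddMonoidHom.rangeRestrict_surjective _
  have : Finite S := hS
  have : Module.Free ℤ (ordHom S).range :=
    inferInstanceAs (Module.Free ℤ (AddSubgroup.toIntSubmodule (ordHom S).range))
  have : Module.Finite ℤ (ordHom S).range :=
    inferInstanceAs (Module.Finite ℤ (AddSubgroup.toIntSubmodule (ordHom S).range))
  have h3 := index_two_ext g hg
  rw [finrank_range S hS] at h3
  have h4 : g.ker = (ordHom S).ker := AddMonoidHom.ker_rangeRestrict _
  obtain ⟨e⟩ := ker_equiv (K := K) S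
  rw [h4, index_two_equiv e, index_units] at h3
  rw [h2, h3, ← pow_add, cnt, add_comm]

end Pool.Agent.H12.QC
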