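import Mathlib
import Pool.Agent.H32.QC.Defs

/-! Weak approximation at finitely many finite places and all real places. -/

set_option autoImplicit false

open NumberField IsDedekindDomain Pool.Agent.H32.QC

namespace Pool.Agent.H12.QC

variable {K : Type} [Field K] [NumberField K]

/-- the absolute value of a real embedding -/
noncomputable def rabv (τ : K →+* ℝ) : AbsoluteValue K ℝ where
  toFun x := |τ x|
  map_mul' x y := by simp [abs_mul]
  nonneg' x := abs_nonneg _
  eq_zero' x := by simp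
  add_le' x y := by rw [map_add]; exact abs_add_le _ _

/-- the family of absolute values -/
noncomputable def fabv (S : Finset (FPl K)) : S ⊕ (K →+* ℝ) → AbsoluteValue K ℝ
  | .inl v => HeightOneSpectrum.adicAbv K v.1
  | .inr τ => rabv τ

lemma rabv_two (τ : K →+* ℝ) : rabv τ 2 = 2 := by
  show |τ 2| = 2
  rw [map_ofNat τ 2]
  exact abs_of_pos two_pos

lemma abv_two (v : FPl K) : HeightOneSpectrum.adicAbv K v 2 ≤ 1 := by
  exact_mod_cast HeightOneSpectrum.adicAbv_natCast_le_one K v 2

lemma adic_lt_one (v : FPl K) (r : 𝓞 K) :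
    HeightOneSpectrum.adicAbv K v (algebraMap (𝓞 K) K r) < 1 ↔ r ∈ v.asIdeal :=
  HeightOneSpectrum.adicAbv_coe_lt_one_iff v (HeightOneSpectrum.one_lt_absNorm_nnreal v) r

lemma adic_neq {v w : FPl K} (h : v ≠ w) :
    ¬ (HeightOneSpectrum.adicAbv K v).IsEquiv (HeightOneSpectrum.adicAbv K w) := by
  intro he
  apply h
  apply HeightOneSpectrum.ext
  ext r
  rw [← adic_lt_one, ← adic_lt_one]
  exact he.lt_one_iff

lemma rabv_eq (τ : K →+* ℝ) (x : K) : rabv τ x = (InfinitePlace.mk (Complex.ofRealHom.comp τ)) x := by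
  rw [InfinitePlace.apply]
  simp [rabv]

lemma rabv_neq {τ σ : K →+* ℝ} (h : τ ≠ σ) : ¬ (rabv τ).IsEquiv (rabv σ) := by
  intro he
  apply h
  have h1 : (InfinitePlace.mk (Complex.ofRealHom.comp τ)).1.IsEquiv
      (InfinitePlace.mk (Complex.ofRealHom.comp σ)).1 := by
    intro x y
    have := he x y
    rw [rabv_eq, rabv_eq, rabv_eq, rabv_eq] at this
    exact this
  have h2 := (InfinitePlace.eq_iff_isEquiv).2 h1
  rw [InfinitePlace.mk_eq_iff] at h2
  rcases h2 with h2 | h2
  · ext x
    have := congrArg (fun f => f x) h2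
    simpa using this
  · ext x
    have := congrArg (fun f => f x) h2
    simpa [ComplexEmbedding.conjugate] using this

lemma fabv_nontriv (S : Finset (FPl K)) (i : S ⊕ (K →+* ℝ)) : (fabv S i).IsNontrivial := by
  rcases i with v | τ
  · obtain ⟨r, hr, hr0⟩ := Submodule.exists_mem_ne_zero_of_ne_bot v.1.ne_bot
    refine ⟨algebraMap (𝓞 K) K r, by simpa using hr0, ?_⟩
    exact ((adic_lt_one v.1 r).2 hr).ne
  · refine ⟨2, two_ne_zero, ?_⟩
    show rabv τ 2 ≠ 1
    rw [rabv_two]; norm_num

lemma fabv_pair (S : Finset (FPl K)) : Pairwise fun i j => ¬ (fabv S i).IsEquiv (fabv S j) := by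
  rintro (v | τ) (w | σ) h
  · exact adic_neq (fun e => h (by rw [Subtype.ext e]))
  · intro he
    have := (he.one_lt_iff (x := 2)).2 (by show 1 < rabv σ 2; rw [rabv_two]; norm_num)
    exact absurd this (not_lt.2 (abv_two v.1))
  · intro he
    have := (he.one_lt_iff (x := 2)).1 (by show 1 < rabv τ 2; rw [rabv_two]; norm_num)
    exact absurd this (not_lt.2 (abv_two w.1))
  · exact rabv_neq (fun e => h (by rw [e]))

/-- weak approximation in `K` itself -/
lemma weakK (S : Finset (FPl K)) (x : FPl K → K) (y : (K →+* ℝ) → K) (ε : ℝ) (hε : 0 < ε) :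
    ∃ z : K, (∀ v ∈ S, HeightOneSpectrum.adicAbv K v (z - x v) < ε) ∧
      ∀ τ : K →+* ℝ, |τ (z - y τ)| < ε := by
  have hd := AbsoluteValue.denseRange_algebraMap_pi (fabv_nontriv S) (fabv_pair S)
  let p : (i : S ⊕ (K →+* ℝ)) → WithAbs (fabv S i) := fun i =>
    match i with
    | .inl v => (WithAbs.equiv (fabv S (.inl v))).symm (x v.1)
    | .inr τ => (WithAbs.equiv (fabv S (.inr τ))).symm (y τ)
  obtain ⟨z, hz⟩ := Metric.denseRange_iff.1 hd p ε hε
  rw [dist_pi_lt_iff hε] at hz
  refine ⟨z, fun v hv => ?_, fun τ => ?_⟩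
  · have := hz (.inl ⟨v, hv⟩)
    rw [dist_comm, dist_eq_norm] at this
    exact this
  · have := hz (.inr τ)
    rw [dist_comm, dist_eq_norm] at this
    exact this

end Pool.Agent.H12.QC
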