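import Mathlib
import Pool.Agent.H32.QC.Defs
import Pool.Agent.H12.QC.WA

/-! Weak approximation at finitely many finite places and all real places. -/

set_option autoImplicit false

open NumberField IsDedekindDomain Pool.Agent.H32.QC

namespace Pool.Agent.H12.QC

variable {K : Type} [Field K] [NumberField K]

lemma norm_ic (v : FPl K) (x : K) : ‖ic v x‖ = HeightOneSpectrum.adicAbv K v x :=
  FinitePlace.norm_embedding v x

/-- weak approximation -/
theorem weakApprox (S : Finset (FPl K)) (x : ∀ v : FPl K, v.adicCompletion K)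
    (N : ∀ v : FPl K, Set (v.adicCompletion K)) (hN : ∀ v ∈ S, N v ∈ nhds (x v))
    (y : (K →+* ℝ) → ℝ) (ε : ℝ) (hε : 0 < ε) :
    ∃ z : K, (∀ v ∈ S, ic v z ∈ N v) ∧ ∀ τ : K →+* ℝ, |τ z - y τ| < ε := by
  classical
  have h1 : ∀ v : FPl K, v ∈ S → ∃ δ > 0, ∀ u : v.adicCompletion K, ‖u - x v‖ < δ → u ∈ N v := by
    intro v hv
    obtain ⟨δ, hδ, h⟩ := Metric.mem_nhds_iff.1 (hN v hv)
    exact ⟨δ, hδ, fun u hu => h (by rw [Metric.mem_ball, dist_eq_norm]; exact hu)⟩
  choose! δ hδ hδN using h1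
  have h2 : ∃ η > 0, η ≤ ε ∧ ∀ v ∈ S, η ≤ δ v := by
    rcases S.eq_empty_or_nonempty with rfl | hne
    · exact ⟨ε, hε, le_refl _, by simp⟩
    · refine ⟨min ε (S.inf' hne δ), ?_, min_le_left _ _, fun v hv =>
        (min_le_right _ _).trans (Finset.inf'_le _ hv)⟩
      refine lt_min hε ?_
      rw [Finset.lt_inf'_iff]
      exact fun v hv => hδ v hv
  obtain ⟨η, hη, hηε, hηδ⟩ := h2
  have h3 : ∀ v : FPl K, ∃ q : K, ‖ic v q - x v‖ < η / 2 := by
    intro v
    obtain ⟨q, hq⟩ := (Metric.denseRange_iff.1 (HeightOneSpectrum.denseRange_algebraMap K v)) (x v) (η / 2) (by positivity)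
    refine ⟨q, ?_⟩
    rw [dist_comm, dist_eq_norm] at hq
    exact hq
  choose q hq using h3
  have h4 : ∀ τ : K →+* ℝ, ∃ r : K, |τ r - y τ| < η / 2 := by
    intro τ
    obtain ⟨r, hr1, hr2⟩ := exists_rat_btwn (show y τ - η / 2 < y τ by linarith)
    refine ⟨(r : K), ?_⟩
    rw [map_ratCast, abs_lt]
    constructor <;> linarith
  choose r hr using h4
  obtain ⟨z, hz1, hz2⟩ := weakK S q r (η / 2) (by positivity)
  refine ⟨z, fun v hv => hδN v hv _ ?_, fun τ => ?_⟩
  · have := hz1 v hv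
    rw [← norm_ic, map_sub] at this
    calc ‖ic v z - x v‖ = ‖(ic v z - ic v (q v)) + (ic v (q v) - x v)‖ := by congr 1; ring
      _ ≤ ‖ic v z - ic v (q v)‖ + ‖ic v (q v) - x v‖ := norm_add_le _ _
      _ < η / 2 + η / 2 := add_lt_add this (hq v)
      _ ≤ δ v := by have := hηδ v hv; linarith
  · have := hz2 τ
    rw [map_sub] at this
    calc |τ z - y τ| = |(τ z - τ (r τ)) + (τ (r τ) - y τ)| := by congr 1; ring
      _ ≤ |τ z - τ (r τ)| + |τ (r τ) - y τ| := abs_add_le _ _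
      _ < η / 2 + η / 2 := add_lt_add this (hr τ)
      _ ≤ ε := by linarith

end Pool.Agent.H12.QC
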