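import Mathlib
import Pool.Agent.H32.QC.Defs

/-! A ring homomorphism of a number field into a completion induces a finite place. -/

set_option autoImplicit false

open NumberField IsDedekindDomain Pool.Agent.H32.QC

namespace Pool.Agent.H12.QC

set_option linter.unusedSectionVars false

variable {L E : Type} [Field L] [NumberField L] [Field E] [NumberField E]

lemma val_ic (w : FPl E) (x : E) : Valued.v (ic w x) = w.valuation E x :=
  HeightOneSpectrum.valuedAdicCompletion_eq_valuation' w x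

lemma val_int_le (w : FPl E) (f : L →+* w.adicCompletion E) (a : 𝓞 L) :
    Valued.v (f (algebraMap (𝓞 L) L a)) ≤ 1 := by
  have h1 : IsIntegral ℤ (algebraMap (𝓞 L) L a) := RingOfIntegers.isIntegral_coe a
  obtain ⟨p, hp, hpe⟩ := h1
  have h3 : IsIntegral (w.adicCompletionIntegers E) (f (algebraMap (𝓞 L) L a)) := by
    refine ⟨p.map (Int.castRingHom _), hp.map _, ?_⟩
    rw [Polynomial.eval₂_map]
    have h4 := congrArg f hpe
    rw [Polynomial.hom_eval₂, map_zero] at h4
    rw [← h4]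
    congr 1
    exact RingHom.ext_int _ _
  obtain ⟨y, hy⟩ := IsIntegrallyClosed.isIntegral_iff.1 h3
  rw [← hy]
  exact y.2

/-- the ideal of the elements of value less than one -/
def vIdeal (w : FPl E) (f : L →+* w.adicCompletion E) (n : ℕ) : Ideal (𝓞 L) where
  carrier := {a | Valued.v (f (algebraMap (𝓞 L) L a)) ≤ WithZero.exp (-(n : ℤ))}
  add_mem' := by
    intro a b ha hb
    have h : Valued.v (f (algebraMap (𝓞 L) L a) + f (algebraMap (𝓞 L) L b)) ≤
      WithZero.exp (-(n : ℤ)) := (Valuation.map_add _ _ _).trans (max_le ha hb)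
    simpa [map_add] using h
  zero_mem' := by
    simp
  smul_mem' := by
    intro c a ha
    have h : Valued.v (f (algebraMap (𝓞 L) L c) * f (algebraMap (𝓞 L) L a)) ≤
        WithZero.exp (-(n : ℤ)) := by
      rw [map_mul]
      calc _ ≤ 1 * WithZero.exp (-(n : ℤ)) := mul_le_mul' (val_int_le w f c) ha
        _ = _ := one_mul _
    simpa [map_mul] using h

lemma mem_vIdeal (w : FPl E) (f : L →+* w.adicCompletion E) (n : ℕ) (a : 𝓞 L) :
    a ∈ vIdeal w f n ↔ Valued.v (f (algebraMap (𝓞 L) L a)) ≤ WithZero.exp (-(n : ℤ)) := Iff.rfl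

lemma mem_vIdeal_one (w : FPl E) (f : L →+* w.adicCompletion E) (a : 𝓞 L) :
    a ∈ vIdeal w f 1 ↔ Valued.v (f (algebraMap (𝓞 L) L a)) < 1 := by
  rw [mem_vIdeal]
  by_cases h0 : Valued.v (f (algebraMap (𝓞 L) L a)) = 0
  · rw [h0]
    simp
  · rw [← WithZero.exp_log h0, ← WithZero.exp_zero, WithZero.exp_le_exp, WithZero.exp_lt_exp]
    omega

lemma vIdeal_mul (w : FPl E) (f : L →+* w.adicCompletion E) (m n : ℕ) :
    vIdeal w f m * vIdeal w f n ≤ vIdeal w f (m + n) := by
  rw [Ideal.mul_le]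
  intro a ha b hb
  rw [mem_vIdeal] at ha hb ⊢
  rw [map_mul, map_mul, map_mul]
  have : WithZero.exp (-((m + n : ℕ) : ℤ)) = WithZero.exp (-(m : ℤ)) * WithZero.exp (-(n : ℤ)) := by
    rw [← WithZero.exp_add]
    congr 1
    push_cast
    ring
  rw [this]
  exact mul_le_mul' ha hb

lemma vIdeal_pow (w : FPl E) (f : L →+* w.adicCompletion E) (n : ℕ) :
    (vIdeal w f 1) ^ n ≤ vIdeal w f n := by
  induction n with
  | zero =>
    intro a _
    rw [mem_vIdeal]
    simpa using val_int_le w f a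
  | succ n ih =>
    rw [pow_succ]
    exact (Ideal.mul_mono_left ih).trans (vIdeal_mul w f n 1)

lemma vIdeal_prime (w : FPl E) (f : L →+* w.adicCompletion E) : (vIdeal w f 1).IsPrime := by
  constructor
  · rw [Ideal.ne_top_iff_one, mem_vIdeal_one]
    simp
  · intro a b hab
    rw [mem_vIdeal_one] at hab ⊢
    rw [mem_vIdeal_one]
    by_contra hcon
    rw [not_or, not_lt, not_lt] at hcon
    have h1 := mul_le_mul' hcon.1 hcon.2
    rw [one_mul, ← map_mul, ← map_mul, ← map_mul] at h1
    exact absurd hab (not_lt.2 h1)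

lemma vIdeal_ne_bot (w : FPl E) (f : L →+* w.adicCompletion E) : vIdeal w f 1 ≠ ⊥ := by
  obtain ⟨p, hp0, hp⟩ : ∃ p : ℕ, p ≠ 0 ∧ ((p : ℕ) : 𝓞 E) ∈ w.asIdeal := by
    refine ⟨Ideal.absNorm w.asIdeal, ?_, Ideal.absNorm_mem w.asIdeal⟩
    rw [Ne, Ideal.absNorm_eq_zero_iff]
    exact w.ne_bot
  intro h
  have h1 : ((p : ℕ) : 𝓞 L) ∈ vIdeal w f 1 := by
    rw [mem_vIdeal_one]
    have h2 : f (algebraMap (𝓞 L) L ((p : ℕ) : 𝓞 L)) = ic w (algebraMap (𝓞 E) E ((p : ℕ) : 𝓞 E)) := by
      simp
    rw [h2, val_ic,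
      HeightOneSpectrum.valuation_of_algebraMap, HeightOneSpectrum.intValuation_lt_one_iff_mem]
    exact hp
  rw [h] at h1
  have h2 : ((p : ℕ) : 𝓞 L) = 0 := by simpa using h1
  exact hp0 (by exact_mod_cast h2)

/-- the induced place -/
def indPl (w : FPl E) (f : L →+* w.adicCompletion E) : FPl L where
  asIdeal := vIdeal w f 1
  isPrime := vIdeal_prime w f
  ne_bot := vIdeal_ne_bot w f

lemma val_le_val (w : FPl E) (f : L →+* w.adicCompletion E) (x : L)
    (hx : (indPl w f).valuation L x ≤ 1) : Valued.v (f x) ≤ (indPl w f).valuation L x := by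
  obtain ⟨n, d, hnd⟩ := HeightOneSpectrum.exists_primeCompl_mul_eq_of_integer (indPl w f) x hx
  by_cases hx0 : x = 0
  · subst hx0
    simp
  have hd0 : (indPl w f).valuation L (algebraMap (𝓞 L) L d) = 1 := by
    rw [HeightOneSpectrum.valuation_eq_one_iff_notMem]
    exact d.2
  have hd1 : Valued.v (f (algebraMap (𝓞 L) L d)) = 1 := by
    refine le_antisymm (val_int_le w f _) ?_
    by_contra hlt
    rw [not_le] at hlt
    exact d.2 ((mem_vIdeal_one w f d).2 hlt)
  have h1 : Valued.v (f x) = Valued.v (f (algebraMap (𝓞 L) L n)) := by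
    rw [← hnd, map_mul, map_mul, hd1, mul_one]
  have h2 : (indPl w f).valuation L x = (indPl w f).intValuation n := by
    have h6 := congrArg ((indPl w f).valuation L) hnd
    rw [map_mul, hd0, mul_one, HeightOneSpectrum.valuation_of_algebraMap] at h6
    exact h6
  rw [h1, h2]
  have hn0 : n ≠ 0 := by
    rintro rfl
    rw [map_zero] at hnd
    rcases mul_eq_zero.1 hnd with h | h
    · exact hx0 h
    · rw [h, map_zero] at hd0
      exact zero_ne_one hd0
  have h3 : (indPl w f).intValuation n ≠ 0 := HeightOneSpectrum.intValuation_ne_zero _ n hn0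
  have h4 : (indPl w f).intValuation n ≤ 1 := HeightOneSpectrum.intValuation_le_one _ n
  obtain ⟨k, hk⟩ : ∃ k : ℕ, (indPl w f).intValuation n = WithZero.exp (-(k : ℤ)) := by
    rw [← WithZero.exp_log h3, ← WithZero.exp_zero, WithZero.exp_le_exp] at h4
    refine ⟨(-(WithZero.log ((indPl w f).intValuation n))).toNat, ?_⟩
    rw [← WithZero.exp_log h3, WithZero.exp_inj, WithZero.log_exp]
    omega
  rw [hk]
  have h5 : n ∈ (indPl w f).asIdeal ^ k := by
    rw [← HeightOneSpectrum.intValuation_le_pow_iff_mem, hk]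
  exact vIdeal_pow w f k h5

end Pool.Agent.H12.QC
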