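import Mathlib
import Pool.Agent.H32.QC.Defs
import Pool.Agent.H12.QC.I3

/-! A ring homomorphism of a number field into a completion extends to the completion at the
induced finite place. -/

set_option autoImplicit false

open NumberField IsDedekindDomain Pool.Agent.H32.QC

set_option linter.unusedSectionVars false

namespace Pool.Agent.H12.QC

variable {L E : Type} [Field L] [NumberField L] [Field E] [NumberField E]

lemma norm_ic' (v : FPl L) (x : L) : ‖ic v x‖ = HeightOneSpectrum.adicAbv L v x :=
  FinitePlace.norm_embedding v x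

lemma norm_lt_iff (w : FPl E) (y : w.adicCompletion E) (n : ℕ) :
    ‖y‖ < ((Ideal.absNorm w.asIdeal : ℝ) ^ n)⁻¹ ↔ Valued.v y < WithZero.exp (-(n : ℤ)) := by
  have h1 := WithZeroMulInt.toNNReal_strictMono (HeightOneSpectrum.one_lt_absNorm_nnreal w)
  have h2 : WithZeroMulInt.toNNReal (HeightOneSpectrum.absNorm_ne_zero w)
      (WithZero.exp (-(n : ℤ))) = ((Ideal.absNorm w.asIdeal : NNReal) ^ n)⁻¹ := by
    rw [WithZeroMulInt.toNNReal_neg_apply _ WithZero.exp_ne_zero]
    have : (WithZero.unzero (WithZero.exp_ne_zero (a := (-(n : ℤ))))).toAdd = (-(n : ℤ)) := by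
      rw [WithZero.toAdd_unzero_eq_log, WithZero.log_exp]
    rw [this, zpow_neg, zpow_natCast]
  rw [FinitePlace.norm_def, ← h1.lt_iff_lt, h2, ← NNReal.coe_lt_coe]
  push_cast
  rfl

lemma ind_small (w : FPl E) (f : L →+* w.adicCompletion E) (x : L) (n : ℕ)
    (hx : ‖ic (indPl w f) x‖ < ((Ideal.absNorm (indPl w f).asIdeal : ℝ) ^ n)⁻¹) :
    ‖f x‖ < ((Ideal.absNorm w.asIdeal : ℝ) ^ n)⁻¹ := by
  rw [norm_lt_iff] at hx ⊢
  rw [val_ic] at hx
  have h1 : (indPl w f).valuation L x ≤ 1 := by
    refine hx.le.trans ?_
    rw [← WithZero.exp_zero, WithZero.exp_le_exp]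
    omega
  exact (val_le_val w f x h1).trans_lt hx

lemma small_pow (w : FPl E) (ε : ℝ) (hε : 0 < ε) : ∃ n : ℕ,
    ((Ideal.absNorm w.asIdeal : ℝ) ^ n)⁻¹ < ε := by
  have h1 : (1 : ℝ) < Ideal.absNorm w.asIdeal := by
    exact_mod_cast HeightOneSpectrum.one_lt_absNorm w
  obtain ⟨n, hn⟩ := pow_unbounded_of_one_lt (ε⁻¹) h1
  exact ⟨n, by rw [inv_lt_comm₀ (by positivity) hε]; exact hn⟩

/-- the extension to the completions -/
theorem exists_indHom (w : FPl E) (f : L →+* w.adicCompletion E) :
    ∃ g : (indPl w f).adicCompletion L →+* w.adicCompletion E, Continuous g ∧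
      ∀ x : L, g (ic (indPl w f) x) = f x := by
  set v := indPl w f with hv
  let e1 := HeightOneSpectrum.adicCompletion.equiv L v
  let F : WithVal (v.valuation L) →+* w.adicCompletion E :=
    f.comp (WithVal.equiv (v.valuation L)).toRingHom
  have hF : Continuous F := by
    refine continuous_of_continuousAt_zero F ?_
    rw [ContinuousAt, map_zero, Metric.tendsto_nhds]
    intro ε hε
    obtain ⟨n, hn⟩ := small_pow w ε hε
    have hc : Continuous (fun x : WithVal (v.valuation L) =>
        (HeightOneSpectrum.adicCompletion.ofCompletion (x : (v.valuation L).Completion) :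
          v.adicCompletion L)) :=
      (HeightOneSpectrum.adicCompletion.continuous_ofCompletion L v).comp
        (UniformSpace.Completion.continuous_coe _)
    have hc0 := hc.tendsto 0
    have hpos : 0 < ((Ideal.absNorm v.asIdeal : ℝ) ^ n)⁻¹ := by
      have h1 : (0 : ℝ) < Ideal.absNorm v.asIdeal := by
        have := HeightOneSpectrum.one_lt_absNorm v
        positivity
      positivity
    have hz : (HeightOneSpectrum.adicCompletion.ofCompletion
        ((0 : WithVal (v.valuation L)) : (v.valuation L).Completion) : v.adicCompletion L) = 0 := by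
      apply HeightOneSpectrum.adicCompletion.ext
      exact UniformSpace.Completion.coe_zero
    rw [hz] at hc0
    filter_upwards [hc0 (Metric.ball_mem_nhds 0 hpos)] with x hx
    rw [dist_zero_right]
    have hx' : ‖ic v ((WithVal.equiv (v.valuation L)) x)‖ < ((Ideal.absNorm v.asIdeal : ℝ) ^ n)⁻¹ := by
      have h3 := hx
      rw [Set.mem_preimage, Metric.mem_ball, dist_zero_right] at h3
      exact h3
    exact (ind_small w f _ n hx').trans hn
  let m := UniformSpace.Completion.extensionHom F hF
  refine ⟨m.comp e1.toRingHom, ?_, ?_⟩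
  · exact (UniformSpace.Completion.continuous_extension).comp
      (HeightOneSpectrum.adicCompletion.continuous_toCompletion L v)
  · intro x
    exact UniformSpace.Completion.extensionHom_coe F hF ((WithVal.equiv (v.valuation L)).symm x)

end Pool.Agent.H12.QC
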