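import Mathlib
import Pool.Agent.H32.QC.Defs
import Pool.Agent.H12.QC.WB
import Pool.Agent.H12.QC.I4

/-! Strong approximation off a rational prime: the finite part. -/

set_option autoImplicit false

open NumberField IsDedekindDomain Pool.Agent.H32.QC

namespace Pool.Agent.H12.QC

variable {K : Type} [Field K] [NumberField K]

lemma norm_le_iff (w : FPl K) (y : w.adicCompletion K) (n : ℕ) :
    ‖y‖ ≤ ((Ideal.absNorm w.asIdeal : ℝ) ^ n)⁻¹ ↔ Valued.v y ≤ WithZero.exp (-(n : ℤ)) := by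
  have h1 := WithZeroMulInt.toNNReal_strictMono (HeightOneSpectrum.one_lt_absNorm_nnreal w)
  have h2 : WithZeroMulInt.toNNReal (HeightOneSpectrum.absNorm_ne_zero w)
      (WithZero.exp (-(n : ℤ))) = ((Ideal.absNorm w.asIdeal : NNReal) ^ n)⁻¹ := by
    rw [WithZeroMulInt.toNNReal_neg_apply _ WithZero.exp_ne_zero]
    have : (WithZero.unzero (WithZero.exp_ne_zero (a := (-(n : ℤ))))).toAdd = (-(n : ℤ)) := by
      rw [WithZero.toAdd_unzero_eq_log, WithZero.log_exp]
    rw [this, zpow_neg, zpow_natCast]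
  rw [FinitePlace.norm_def, ← h1.le_iff_le, h2, ← NNReal.coe_le_coe]
  push_cast
  rfl

lemma norm_mem_pow (w : FPl K) (r : 𝓞 K) (n : ℕ) :
    ‖ic w (algebraMap (𝓞 K) K r)‖ ≤ ((Ideal.absNorm w.asIdeal : ℝ) ^ n)⁻¹ ↔ r ∈ w.asIdeal ^ n := by
  rw [norm_le_iff, val_ic, HeightOneSpectrum.valuation_of_algebraMap,
    HeightOneSpectrum.intValuation_le_pow_iff_mem]

lemma norm_int_le (w : FPl K) (r : 𝓞 K) : ‖ic w (algebraMap (𝓞 K) K r)‖ ≤ 1 := by
  have := (norm_mem_pow w r 0).2 (by simp)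
  simpa using this

lemma norm_eq_one (w : FPl K) (r : 𝓞 K) (hr : r ∉ w.asIdeal) :
    ‖ic w (algebraMap (𝓞 K) K r)‖ = 1 :=
  (FinitePlace.norm_eq_one_iff_notMem K w r).2 hr

lemma exists_den (z : K) : ∃ (m : 𝓞 K) (b : 𝓞 K), m ≠ 0 ∧
    z * algebraMap (𝓞 K) K m = algebraMap (𝓞 K) K b := by
  obtain ⟨a, b, hb, h⟩ := IsFractionRing.div_surjective (A := 𝓞 K) z
  refine ⟨b, a, nonZeroDivisors.ne_zero hb, ?_⟩
  rw [← h]
  have : algebraMap (𝓞 K) K b ≠ 0 := by
    simpa using nonZeroDivisors.ne_zero hb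
  field_simp

/-- the finite part of strong approximation -/
theorem strongFin (S : Finset (FPl K)) (z0 : K) (δ : ℝ) (hδ : 0 < δ) :
    ∃ z : K, (∀ v ∈ S, ‖ic v z - ic v z0‖ < δ) ∧ ∀ v, v ∉ S → ‖ic v z‖ ≤ 1 := by
  classical
  obtain ⟨m, b, hm, hmb⟩ := exists_den z0
  have hmK : algebraMap (𝓞 K) K m ≠ 0 := by simpa using hm
  have hfin : {v : FPl K | m ∈ v.asIdeal}.Finite := by
    have h1 := Ideal.finite_factors (I := Ideal.span {m}) (by simpa using hm)
    refine h1.subset fun v hv => ?_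
    rw [Set.mem_ofPred_eq] at hv ⊢
    rw [Ideal.dvd_span_singleton]
    exact hv
  let T : Finset (FPl K) := S ∪ hfin.toFinset
  have hpos : ∀ v : FPl K, 0 < ‖ic v (algebraMap (𝓞 K) K m)‖ := by
    intro v
    rw [norm_pos_iff]
    simpa using hmK
  have he : ∀ v : FPl K, ∃ n : ℕ, ((Ideal.absNorm v.asIdeal : ℝ) ^ n)⁻¹ <
      min δ 1 * ‖ic v (algebraMap (𝓞 K) K m)‖ := fun v =>
    small_pow v _ (mul_pos (lt_min hδ one_pos) (hpos v))
  choose e he using he
  obtain ⟨a, ha⟩ := IsDedekindDomain.exists_forall_sub_mem_ideal (s := T)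
    (fun v : FPl K => v.asIdeal) e (fun v _ => v.prime)
    (fun v _ w _ hvw => fun h => hvw (HeightOneSpectrum.ext h))
    (fun v => if v.1 ∈ S then b else 0)
  refine ⟨algebraMap (𝓞 K) K a / algebraMap (𝓞 K) K m, ?_, ?_⟩
  · intro v hv
    have hvT : v ∈ T := Finset.mem_union_left _ hv
    have h1 := ha v hvT
    simp only [hv, if_true] at h1
    rw [← norm_mem_pow, map_sub, map_sub] at h1
    have h2 : ic v (algebraMap (𝓞 K) K a / algebraMap (𝓞 K) K m) - ic v z0 =
        (ic v (algebraMap (𝓞 K) K a) - ic v (algebraMap (𝓞 K) K b)) / ic v (algebraMap (𝓞 K) K m) := by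
      rw [← hmb, map_div₀, map_mul]
      have : ic v (algebraMap (𝓞 K) K m) ≠ 0 := by simpa using hmK
      field_simp
    rw [h2, norm_div, div_lt_iff₀ (hpos v)]
    calc _ ≤ _ := h1
      _ < _ := he v
      _ ≤ _ := mul_le_mul_of_nonneg_right (min_le_left _ _) (norm_nonneg _)
  · intro v hv
    rw [map_div₀, norm_div, div_le_one (hpos v)]
    by_cases hmv : m ∈ v.asIdeal
    · have hvT : v ∈ T := Finset.mem_union_right _ (by simpa using hmv)
      have h1 := ha v hvT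
      simp only [hv, if_false, sub_zero] at h1
      rw [← norm_mem_pow] at h1
      calc _ ≤ _ := h1
        _ ≤ _ := (he v).le
        _ ≤ 1 * _ := mul_le_mul_of_nonneg_right (min_le_right _ _) (norm_nonneg _)
        _ = _ := one_mul _
    · rw [norm_eq_one v m hmv]
      exact norm_int_le v a

end Pool.Agent.H12.QC
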