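import Mathlib
import Pool.Agent.H32.QC.Defs
import Pool.Agent.H12.QC.SA1

/-! Strong approximation off a rational prime. -/

set_option autoImplicit false

open NumberField IsDedekindDomain Pool.Agent.H32.QC

namespace Pool.Agent.H12.QC

variable {K : Type} [Field K] [NumberField K]

/-- elements `c / p ^ n` are dense at the real places -/
lemma dense_real (p : ℕ) (hp : p.Prime) (y : (K →+* ℝ) → ℝ) (ε : ℝ) (hε : 0 < ε) :
    ∃ (c : 𝓞 K) (n : ℕ), ∀ τ : K →+* ℝ, |τ (algebraMap (𝓞 K) K c / (p : K) ^ n) - y τ| < ε := by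
  classical
  obtain ⟨q, -, hq⟩ := weakApprox (K := K) ∅ (fun _ => 0) (fun _ => Set.univ) (by simp) y (ε / 2)
    (by positivity)
  let b := NumberField.integralBasis K
  let C : ℝ := ∑ τ : K →+* ℝ, ∑ i, |τ (b i)|
  have hC : 0 ≤ C := Finset.sum_nonneg fun τ _ => Finset.sum_nonneg fun i _ => abs_nonneg _
  have hp1 : (1 : ℝ) < p := by exact_mod_cast hp.one_lt
  obtain ⟨n, hn⟩ := pow_unbounded_of_one_lt ((C + 1) / (ε / 2)) hp1
  have hpn : (0 : ℝ) < (p : ℝ) ^ n := by positivity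
  have hn' : (C + 1) / (p : ℝ) ^ n < ε / 2 := by
    rw [div_lt_iff₀ (by positivity)] at hn
    rw [div_lt_iff₀ hpn]
    linarith
  refine ⟨∑ i, ((⌊(b.repr q i) * (p : ℚ) ^ n⌋ : ℤ)) • (NumberField.RingOfIntegers.basis K i), n,
    fun τ => ?_⟩
  have h1 : algebraMap (𝓞 K) K (∑ i, ((⌊(b.repr q i) * (p : ℚ) ^ n⌋ : ℤ)) •
      (NumberField.RingOfIntegers.basis K i)) = ∑ i, ((⌊(b.repr q i) * (p : ℚ) ^ n⌋ : ℤ) : K) * b i := by
    rw [map_sum]
    refine Finset.sum_congr rfl fun i _ => ?_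
    rw [zsmul_eq_mul, map_mul, map_intCast, NumberField.integralBasis_apply]
  have h2 : q = ∑ i, ((b.repr q i : ℚ) : K) * b i := by
    conv_lhs => rw [← b.sum_repr q]
    refine Finset.sum_congr rfl fun i _ => ?_
    rw [Algebra.smul_def]
    rfl
  have hpK : (p : K) ≠ 0 := by exact_mod_cast hp.ne_zero
  have h3 : τ (algebraMap (𝓞 K) K (∑ i, ((⌊(b.repr q i) * (p : ℚ) ^ n⌋ : ℤ)) •
      (NumberField.RingOfIntegers.basis K i)) / (p : K) ^ n) - τ q =
      ∑ i, (((⌊(b.repr q i) * (p : ℚ) ^ n⌋ : ℤ) : ℝ) / (p : ℝ) ^ n - ((b.repr q i : ℚ) : ℝ)) * τ (b i) := by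
    conv_lhs => rw [h1]; arg 2; rw [h2]
    rw [map_div₀, map_sum, map_sum, map_pow, map_natCast, Finset.sum_div, ← Finset.sum_sub_distrib]
    refine Finset.sum_congr rfl fun i _ => ?_
    rw [map_mul, map_mul, map_intCast, map_ratCast]
    ring
  have h4 : ∀ i, |((⌊(b.repr q i) * (p : ℚ) ^ n⌋ : ℤ) : ℝ) / (p : ℝ) ^ n - ((b.repr q i : ℚ) : ℝ)| ≤
      1 / (p : ℝ) ^ n := by
    intro i
    have e1 : ((⌊(b.repr q i) * (p : ℚ) ^ n⌋ : ℤ) : ℝ) ≤ ((b.repr q i : ℚ) : ℝ) * (p : ℝ) ^ n := by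
      have := Int.floor_le ((b.repr q i) * (p : ℚ) ^ n)
      exact_mod_cast this
    have e2 : ((b.repr q i : ℚ) : ℝ) * (p : ℝ) ^ n < ((⌊(b.repr q i) * (p : ℚ) ^ n⌋ : ℤ) : ℝ) + 1 := by
      have := Int.lt_floor_add_one ((b.repr q i) * (p : ℚ) ^ n)
      exact_mod_cast this
    rw [div_sub' hpn.ne', abs_div, abs_of_pos hpn]
    refine div_le_div_of_nonneg_right ?_ hpn.le
    rw [abs_le]
    constructor <;> nlinarith
  have h5 : |τ (algebraMap (𝓞 K) K (∑ i, ((⌊(b.repr q i) * (p : ℚ) ^ n⌋ : ℤ)) •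
      (NumberField.RingOfIntegers.basis K i)) / (p : K) ^ n) - τ q| ≤ C / (p : ℝ) ^ n := by
    rw [h3]
    refine (Finset.abs_sum_le_sum_abs _ _).trans ?_
    calc _ ≤ ∑ i, 1 / (p : ℝ) ^ n * |τ (b i)| := Finset.sum_le_sum fun i _ => by
          rw [abs_mul]
          exact mul_le_mul_of_nonneg_right (h4 i) (abs_nonneg _)
      _ = (1 / (p : ℝ) ^ n) * ∑ i, |τ (b i)| := by rw [Finset.mul_sum]
      _ ≤ (1 / (p : ℝ) ^ n) * C := by
          refine mul_le_mul_of_nonneg_left ?_ (by positivity)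
          exact Finset.single_le_sum (f := fun τ : K →+* ℝ => ∑ i, |τ (b i)|)
            (fun τ _ => Finset.sum_nonneg fun i _ => abs_nonneg _) (Finset.mem_univ τ)
      _ = _ := by ring
  have h6 : C / (p : ℝ) ^ n ≤ (C + 1) / (p : ℝ) ^ n :=
    div_le_div_of_nonneg_right (by linarith) hpn.le
  have h7 := hq τ
  set A := τ (algebraMap (𝓞 K) K (∑ i, ((⌊(b.repr q i) * (p : ℚ) ^ n⌋ : ℤ)) •
      (NumberField.RingOfIntegers.basis K i)) / (p : K) ^ n)
  calc |A - y τ| = |(A - τ q) + (τ q - y τ)| := by congr 1; ring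
    _ ≤ |A - τ q| + |τ q - y τ| := abs_add_le _ _
    _ < ε / 2 + ε / 2 := by
        refine add_lt_add_of_le_of_lt ?_ h7
        linarith
    _ = ε := by ring

lemma norm_le_one_iff (w : FPl K) (y : w.adicCompletion K) : ‖y‖ ≤ 1 ↔ Valued.v y ≤ 1 := by
  have := norm_le_iff w y 0
  simpa using this

lemma norm_add_le_one (w : FPl K) (x y : w.adicCompletion K) (hx : ‖x‖ ≤ 1) (hy : ‖y‖ ≤ 1) :
    ‖x + y‖ ≤ 1 := by
  rw [norm_le_one_iff] at *
  exact (Valuation.map_add _ _ _).trans (max_le hx hy)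

lemma exists_small_nat (S : Finset (FPl K)) (δ : ℝ) (hδ : 0 < δ) :
    ∃ M : ℕ, M ≠ 0 ∧ ∀ v ∈ S, ‖ic v (M : K)‖ < δ := by
  classical
  choose k hk using fun v : FPl K => small_pow v δ hδ
  refine ⟨∏ v ∈ S, (Ideal.absNorm v.asIdeal) ^ (k v), ?_, ?_⟩
  · rw [Finset.prod_ne_zero_iff]
    intro v _
    have := HeightOneSpectrum.one_lt_absNorm v
    positivity
  · intro v hv
    rw [← Finset.mul_prod_erase S (fun v => (Ideal.absNorm v.asIdeal) ^ (k v)) hv]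
    have h1 : ((((Ideal.absNorm v.asIdeal) ^ (k v) *
        ∏ w ∈ S.erase v, (Ideal.absNorm w.asIdeal) ^ (k w) : ℕ) : ℕ) : K) =
        algebraMap (𝓞 K) K (((Ideal.absNorm v.asIdeal : ℕ) : 𝓞 K) ^ (k v) *
          ((∏ w ∈ S.erase v, (Ideal.absNorm w.asIdeal) ^ (k w) : ℕ) : 𝓞 K)) := by
      simp
    rw [h1]
    refine lt_of_le_of_lt ((norm_mem_pow v _ (k v)).2 ?_) (hk v)
    exact Ideal.mul_mem_right _ _ (Ideal.pow_mem_pow (Ideal.absNorm_mem v.asIdeal) _)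

/-- strong approximation off the places above a rational prime -/
theorem strongApprox (p : ℕ) (hp : p.Prime) (S : Finset (FPl K))
    (hS : ∀ v ∈ S, (p : 𝓞 K) ∉ v.asIdeal) (x : ∀ v : FPl K, v.adicCompletion K)
    (N : ∀ v : FPl K, Set (v.adicCompletion K)) (hN : ∀ v ∈ S, N v ∈ nhds (x v))
    (y : (K →+* ℝ) → ℝ) (ε : ℝ) (hε : 0 < ε) :
    ∃ z : K, (∀ v ∈ S, ic v z ∈ N v) ∧
      (∀ v, v ∉ S → (p : 𝓞 K) ∉ v.asIdeal → ‖ic v z‖ ≤ 1) ∧ ∀ τ : K →+* ℝ, |τ z - y τ| < ε := by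
  classical
  have h1 : ∀ v : FPl K, v ∈ S → ∃ δ > 0, ∀ u : v.adicCompletion K, ‖u - x v‖ < δ → u ∈ N v := by
    intro v hv
    obtain ⟨δ, hδ, h⟩ := Metric.mem_nhds_iff.1 (hN v hv)
    exact ⟨δ, hδ, fun u hu => h (by rw [Metric.mem_ball, dist_eq_norm]; exact hu)⟩
  choose! δ hδ hδN using h1
  have h2 : ∃ η > 0, ∀ v ∈ S, η ≤ δ v := by
    rcases S.eq_empty_or_nonempty with rfl | hne
    · exact ⟨1, one_pos, by simp⟩
    · refine ⟨S.inf' hne δ, ?_, fun v hv => Finset.inf'_le _ hv⟩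
      rw [gt_iff_lt, Finset.lt_inf'_iff]
      exact fun v hv => hδ v hv
  obtain ⟨η, hη, hηδ⟩ := h2
  obtain ⟨z0, hz0, -⟩ := weakApprox S x (fun v => Metric.ball (x v) (η / 3))
    (fun v _ => Metric.ball_mem_nhds _ (by positivity)) y 1 one_pos
  obtain ⟨z1, hz1, hz1'⟩ := strongFin S z0 (η / 3) (by positivity)
  obtain ⟨M, hM0, hM⟩ := exists_small_nat S (η / 3) (by positivity)
  have hMr : (0 : ℝ) < M := by positivity
  obtain ⟨c, n, hc⟩ := dense_real p hp (fun τ => (y τ - τ z1) / M) (ε / M) (by positivity)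
  set u : K := algebraMap (𝓞 K) K c / (p : K) ^ n with hu
  have hpn : ∀ v : FPl K, (p : 𝓞 K) ∉ v.asIdeal → ‖ic v u‖ ≤ 1 := by
    intro v hv
    have e1 : ic v (p : K) = ic v (algebraMap (𝓞 K) K (p : 𝓞 K)) := by simp
    rw [hu, map_div₀, norm_div, map_pow, norm_pow, e1, norm_eq_one v _ hv, one_pow, div_one]
    exact norm_int_le v c
  refine ⟨z1 + M * u, fun v hv => hδN v hv _ ?_, fun v hv hpv => ?_, fun τ => ?_⟩
  · have e1 := hz0 v hv
    rw [Metric.mem_ball, dist_eq_norm] at e1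
    have e2 := hz1 v hv
    have e3 : ‖ic v ((M : K) * u)‖ < η / 3 := by
      rw [map_mul, norm_mul]
      calc _ ≤ ‖ic v (M : K)‖ * 1 := mul_le_mul_of_nonneg_left (hpn v (hS v hv)) (norm_nonneg _)
        _ = _ := mul_one _
        _ < _ := hM v hv
    calc ‖ic v (z1 + M * u) - x v‖ = ‖(ic v z1 - ic v z0) + (ic v z0 - x v) + ic v (M * u)‖ := by
          congr 1; rw [map_add]; ring
      _ ≤ ‖(ic v z1 - ic v z0) + (ic v z0 - x v)‖ + ‖ic v (M * u)‖ := norm_add_le _ _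
      _ ≤ (‖ic v z1 - ic v z0‖ + ‖ic v z0 - x v‖) + ‖ic v (M * u)‖ := by
          gcongr
          exact norm_add_le _ _
      _ < (η / 3 + η / 3) + η / 3 := by linarith
      _ ≤ δ v := by have := hηδ v hv; linarith
  · rw [map_add]
    refine norm_add_le_one v _ _ (hz1' v hv) ?_
    rw [map_mul, norm_mul]
    have e1 : ‖ic v (M : K)‖ ≤ 1 := by
      have := norm_int_le v (M : 𝓞 K)
      simpa using this
    calc _ ≤ 1 * 1 := mul_le_mul e1 (hpn v hpv) (norm_nonneg _) zero_le_one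
      _ = 1 := one_mul _
  · have e1 := hc τ
    have e2 : τ (z1 + M * u) - y τ = M * (τ u - (y τ - τ z1) / M) := by
      rw [map_add, map_mul, map_natCast]
      field_simp
      ring
    rw [e2, abs_mul, abs_of_pos hMr]
    calc (M : ℝ) * |τ u - (y τ - τ z1) / M| < M * (ε / M) := mul_lt_mul_of_pos_left e1 hMr
      _ = ε := by field_simp

end Pool.Agent.H12.QC
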