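import Mathlib
import Pool.Agent.H32.QC.Defs
import Pool.Agent.H12.QC.SA

/-! Strong approximation off a rational prime, with all infinite places. -/

set_option autoImplicit false

open NumberField IsDedekindDomain Pool.Agent.H32.QC

namespace Pool.Agent.H12.QC.Inf

open Pool.Agent.H12.QC

variable {K : Type} [Field K] [NumberField K]

omit [NumberField K] in
lemma emb_dense (w : InfinitePlace K) (y : ℂ) (hy : w.IsReal → y.im = 0) (ε : ℝ) (hε : 0 < ε) :
    ∃ q : K, ‖w.embedding q - y‖ < ε := by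
  by_cases hw : w.IsReal
  · obtain ⟨r, hr1, hr2⟩ := exists_rat_btwn (show y.re - ε < y.re by linarith)
    refine ⟨(r : K), ?_⟩
    rw [map_ratCast]
    have h1 : (r : ℂ) - y = (((r : ℝ) - y.re : ℝ) : ℂ) := by
      apply Complex.ext
      · simp
      · simp [hy hw]
    rw [h1, Complex.norm_real, Real.norm_eq_abs, abs_lt]
    constructor <;> linarith
  · have hc : w.IsComplex := by
      rwa [← InfinitePlace.not_isReal_iff_isComplex]
    obtain ⟨t, ht⟩ := InfinitePlace.Completion.surjective_extensionEmbedding_of_isComplex hc y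
    obtain ⟨q, hq⟩ := Metric.denseRange_iff.1 (InfinitePlace.Completion.denseRange_coe w) t ε hε
    refine ⟨WithAbs.equiv w.1 q, ?_⟩
    have h1 := (InfinitePlace.Completion.isometry_extensionEmbedding w).dist_eq t q
    rw [InfinitePlace.Completion.extensionEmbedding_coe, ht] at h1
    rw [← dist_eq_norm, dist_comm, h1]
    exact hq

lemma emb_dense_all (y : InfinitePlace K → ℂ) (hy : ∀ w, w.IsReal → (y w).im = 0) (ε : ℝ)
    (hε : 0 < ε) : ∃ q : K, ∀ w : InfinitePlace K, ‖w.embedding q - y w‖ < ε := by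
  choose r hr using fun w => emb_dense w (y w) (hy w) (ε / 2) (by positivity)
  obtain ⟨q, hq⟩ := Metric.denseRange_iff.1 (InfinitePlace.denseRange_algebraMap_pi K)
    (fun w => (WithAbs.equiv w.1).symm (r w)) (ε / 2) (by positivity)
  refine ⟨q, fun w => ?_⟩
  rw [dist_pi_lt_iff (by positivity)] at hq
  have h1 := hq w
  rw [dist_comm, dist_eq_norm] at h1
  have h2 : w (q - r w) < ε / 2 := h1
  rw [← InfinitePlace.norm_embedding_eq, map_sub] at h2
  calc ‖w.embedding q - y w‖ = ‖(w.embedding q - w.embedding (r w)) + (w.embedding (r w) - y w)‖ := by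
        congr 1; ring
    _ ≤ ‖w.embedding q - w.embedding (r w)‖ + ‖w.embedding (r w) - y w‖ := norm_add_le _ _
    _ < ε / 2 + ε / 2 := add_lt_add h2 (hr w)
    _ = ε := by ring

/-- elements `c / p ^ n` are dense at the infinite places -/
lemma dense_lat (p : ℕ) (hp : p.Prime) (q : K) (ε : ℝ) (hε : 0 < ε) :
    ∃ (c : 𝓞 K) (n : ℕ), ∀ w : InfinitePlace K,
      ‖w.embedding (algebraMap (𝓞 K) K c / (p : K) ^ n) - w.embedding q‖ < ε := by
  classical
  let b := NumberField.integralBasis K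
  let C : ℝ := ∑ w : InfinitePlace K, ∑ i, ‖w.embedding (b i)‖
  have hC : 0 ≤ C := Finset.sum_nonneg fun w _ => Finset.sum_nonneg fun i _ => norm_nonneg _
  have hp1 : (1 : ℝ) < p := by exact_mod_cast hp.one_lt
  obtain ⟨n, hn⟩ := pow_unbounded_of_one_lt ((C + 1) / ε) hp1
  have hpn : (0 : ℝ) < (p : ℝ) ^ n := by positivity
  have hn' : (C + 1) / (p : ℝ) ^ n < ε := by
    rw [div_lt_iff₀ (by positivity)] at hn
    rw [div_lt_iff₀ hpn]
    linarith
  refine ⟨∑ i, ((⌊(b.repr q i) * (p : ℚ) ^ n⌋ : ℤ)) • (NumberField.RingOfIntegers.basis K i), n,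
    fun w => ?_⟩
  have h1 : algebraMap (𝓞 K) K (∑ i, ((⌊(b.repr q i) * (p : ℚ) ^ n⌋ : ℤ)) •
      (NumberField.RingOfIntegers.basis K i)) = ∑ i, ((⌊(b.repr q i) * (p : ℚ) ^ n⌋ : ℤ) : K) * b i := by
    rw [map_sum]
    refine Finset.sum_congr rfl fun i _ => ?_
    rw [zsmul_eq_mul, map_mul, map_intCast, NumberField.integralBasis_apply]
  have h2 : q = ∑ i, ((b.repr q i : ℚ) : K) * b i := by
    conv_lhs => rw [← b.sum_repr q]
    refine Finset.sum_congr rfl fun i _ => ?_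
    rw [Algebra.smul_def]
    rfl
  have h3 : w.embedding (algebraMap (𝓞 K) K (∑ i, ((⌊(b.repr q i) * (p : ℚ) ^ n⌋ : ℤ)) •
      (NumberField.RingOfIntegers.basis K i)) / (p : K) ^ n) - w.embedding q =
      ∑ i, ((((⌊(b.repr q i) * (p : ℚ) ^ n⌋ : ℤ) : ℝ) / (p : ℝ) ^ n - ((b.repr q i : ℚ) : ℝ) : ℝ) : ℂ) *
        w.embedding (b i) := by
    conv_lhs => rw [h1]; arg 2; rw [h2]
    rw [map_div₀, map_sum, map_sum, map_pow, map_natCast, Finset.sum_div, ← Finset.sum_sub_distrib]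
    refine Finset.sum_congr rfl fun i _ => ?_
    rw [map_mul, map_mul, map_intCast, map_ratCast]
    push_cast
    ring
  have h4 : ∀ i, |((⌊(b.repr q i) * (p : ℚ) ^ n⌋ : ℤ) : ℝ) / (p : ℝ) ^ n - ((b.repr q i : ℚ) : ℝ)| ≤
      1 / (p : ℝ) ^ n := by
    intro i
    have e1 : ((⌊(b.repr q i) * (p : ℚ) ^ n⌋ : ℤ) : ℝ) ≤ ((b.repr q i : ℚ) : ℝ) * (p : ℝ) ^ n := by
      have := Int.floor_le ((b.repr q i) * (p : ℚ) ^ n)
      exact_mod_cast this
    have e2 : ((b.repr q i : ℚ) : ℝ) * (p : ℝ) ^ n < ((⌊(b.repr q i) * (p : ℚ) ^ n⌋ : ℤ) : ℝ) + 1 := by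
      have := Int.lt_floor_add_one ((b.repr q i) * (p : ℚ) ^ n)
      exact_mod_cast this
    rw [div_sub' hpn.ne', abs_div, abs_of_pos hpn]
    refine div_le_div_of_nonneg_right ?_ hpn.le
    rw [abs_le]
    constructor <;> nlinarith
  rw [h3]
  refine lt_of_le_of_lt (norm_sum_le _ _) ?_
  calc _ ≤ ∑ i, 1 / (p : ℝ) ^ n * ‖w.embedding (b i)‖ := Finset.sum_le_sum fun i _ => by
        rw [norm_mul, Complex.norm_real, Real.norm_eq_abs]
        exact mul_le_mul_of_nonneg_right (h4 i) (norm_nonneg _)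
    _ = (1 / (p : ℝ) ^ n) * ∑ i, ‖w.embedding (b i)‖ := by rw [Finset.mul_sum]
    _ ≤ (1 / (p : ℝ) ^ n) * C := by
        refine mul_le_mul_of_nonneg_left ?_ (by positivity)
        exact Finset.single_le_sum (f := fun w : InfinitePlace K => ∑ i, ‖w.embedding (b i)‖)
          (fun w _ => Finset.sum_nonneg fun i _ => norm_nonneg _) (Finset.mem_univ w)
    _ ≤ (1 / (p : ℝ) ^ n) * (C + 1) := by
        refine mul_le_mul_of_nonneg_left (by linarith) (by positivity)
    _ = (C + 1) / (p : ℝ) ^ n := by ring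
    _ < ε := hn'

/-- strong approximation off the places above a rational prime, all infinite places -/
theorem strongApprox (p : ℕ) (hp : p.Prime) (S : Finset (FPl K))
    (hS : ∀ v ∈ S, (p : 𝓞 K) ∉ v.asIdeal) (x : ∀ v : FPl K, v.adicCompletion K)
    (N : ∀ v : FPl K, Set (v.adicCompletion K)) (hN : ∀ v ∈ S, N v ∈ nhds (x v))
    (y : InfinitePlace K → ℂ) (hy : ∀ w, w.IsReal → (y w).im = 0) (ε : ℝ) (hε : 0 < ε) :
    ∃ z : K, (∀ v ∈ S, ic v z ∈ N v) ∧
      (∀ v, v ∉ S → (p : 𝓞 K) ∉ v.asIdeal → ‖ic v z‖ ≤ 1) ∧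
      ∀ w : InfinitePlace K, ‖w.embedding z - y w‖ < ε := by
  classical
  have h1 : ∀ v : FPl K, v ∈ S → ∃ δ > 0, ∀ u : v.adicCompletion K, ‖u - x v‖ < δ → u ∈ N v := by
    intro v hv
    obtain ⟨δ, hδ, h⟩ := Metric.mem_nhds_iff.1 (hN v hv)
    exact ⟨δ, hδ, fun u hu => h (by rw [Metric.mem_ball, dist_eq_norm]; exact hu)⟩
  choose! δ hδ hδN using h1
  have h2 : ∃ η > 0, ∀ v ∈ S, η ≤ δ v := by
    rcases S.eq_empty_or_nonempty with rfl | hne
    · exact ⟨1, one_pos, by simp⟩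
    · refine ⟨S.inf' hne δ, ?_, fun v hv => Finset.inf'_le _ hv⟩
      rw [gt_iff_lt, Finset.lt_inf'_iff]
      exact fun v hv => hδ v hv
  obtain ⟨η, hη, hηδ⟩ := h2
  obtain ⟨z0, hz0, -⟩ := weakApprox S x (fun v => Metric.ball (x v) (η / 3))
    (fun v _ => Metric.ball_mem_nhds _ (by positivity)) (fun _ => 0) 1 one_pos
  obtain ⟨z1, hz1, hz1'⟩ := strongFin S z0 (η / 3) (by positivity)
  obtain ⟨M, hM0, hM⟩ := exists_small_nat S (η / 3) (by positivity)
  have hMr : (0 : ℝ) < M := by positivity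
  have hMK : (M : K) ≠ 0 := by exact_mod_cast hM0
  obtain ⟨q, hq⟩ := emb_dense_all y hy (ε / 2) (by positivity)
  obtain ⟨c, n, hc⟩ := dense_lat p hp ((q - z1) / M) (ε / 2 / M) (by positivity)
  set u : K := algebraMap (𝓞 K) K c / (p : K) ^ n with hu
  have hpn : ∀ v : FPl K, (p : 𝓞 K) ∉ v.asIdeal → ‖ic v u‖ ≤ 1 := by
    intro v hv
    have e1 : ic v (p : K) = ic v (algebraMap (𝓞 K) K (p : 𝓞 K)) := by simp
    rw [hu, map_div₀, norm_div, map_pow, norm_pow, e1, norm_eq_one v _ hv, one_pow, div_one]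
    exact norm_int_le v c
  refine ⟨z1 + M * u, fun v hv => hδN v hv _ ?_, fun v hv hpv => ?_, fun w => ?_⟩
  · have e1 := hz0 v hv
    rw [Metric.mem_ball, dist_eq_norm] at e1
    have e2 := hz1 v hv
    have e3 : ‖ic v ((M : K) * u)‖ < η / 3 := by
      rw [map_mul, norm_mul]
      calc _ ≤ ‖ic v (M : K)‖ * 1 := mul_le_mul_of_nonneg_left (hpn v (hS v hv)) (norm_nonneg _)
        _ = _ := mul_one _
        _ < _ := hM v hv
    calc ‖ic v (z1 + M * u) - x v‖ = ‖(ic v z1 - ic v z0) + (ic v z0 - x v) + ic v (M * u)‖ := by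
          congr 1; rw [map_add]; ring
      _ ≤ ‖(ic v z1 - ic v z0) + (ic v z0 - x v)‖ + ‖ic v (M * u)‖ := norm_add_le _ _
      _ ≤ (‖ic v z1 - ic v z0‖ + ‖ic v z0 - x v‖) + ‖ic v (M * u)‖ := by
          gcongr
          exact norm_add_le _ _
      _ < (η / 3 + η / 3) + η / 3 := by linarith
      _ ≤ δ v := by have := hηδ v hv; linarith
  · rw [map_add]
    refine norm_add_le_one v _ _ (hz1' v hv) ?_
    rw [map_mul, norm_mul]
    have e1 : ‖ic v (M : K)‖ ≤ 1 := by
      have := norm_int_le v (M : 𝓞 K)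
      simpa using this
    calc _ ≤ 1 * 1 := mul_le_mul e1 (hpn v hpv) (norm_nonneg _) zero_le_one
      _ = 1 := one_mul _
  · have e1 := hc w
    have e3 := hq w
    have e2 : w.embedding (z1 + M * u) - y w =
        M * (w.embedding u - w.embedding ((q - z1) / M)) + (w.embedding q - y w) := by
      have e5 : w.embedding ((q - z1) / M) = (w.embedding q - w.embedding z1) / M := by
        rw [map_div₀, map_sub, map_natCast]
      rw [map_add, map_mul, map_natCast, e5]
      have : (M : ℂ) ≠ 0 := by exact_mod_cast hM0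
      field_simp
      ring
    rw [e2]
    have e4 : ‖(M : ℂ) * (w.embedding u - w.embedding ((q - z1) / M))‖ < ε / 2 := by
      rw [norm_mul, Complex.norm_natCast]
      calc (M : ℝ) * ‖w.embedding u - w.embedding ((q - z1) / M)‖ < M * (ε / 2 / M) :=
            mul_lt_mul_of_pos_left e1 hMr
        _ = ε / 2 := by field_simp
    calc _ ≤ _ := norm_add_le _ _
      _ < ε / 2 + ε / 2 := add_lt_add e4 e3
      _ = ε := by ring

end Pool.Agent.H12.QC.Inf
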